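import Pool.Agent.H91.LF.Defs

/-!
Basic facts on means and on `lz` for the project LF on `MP_c59857_nt`.
-/

set_option autoImplicit false

open Finset Filter Topology

namespace Pool.Agent.H91.LF

open Pool.Agent.H24.MR (lam)
open Pool.Agent.H24.T2 (Pset)

section Bounded

variable {Ω : Type*}

theorem bdd_const (c : ℝ) : Bdd (fun _ : Ω => c) := ⟨|c|, fun _ => le_rfl⟩

theorem bdd_add {f g : Ω → ℝ} (hf : Bdd f) (hg : Bdd g) : Bdd (fun ω => f ω + g ω) := by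
  obtain ⟨C, hC⟩ := hf
  obtain ⟨D, hD⟩ := hg
  exact ⟨C + D, fun ω => (abs_add_le _ _).trans (add_le_add (hC ω) (hD ω))⟩

theorem bdd_mul {f g : Ω → ℝ} (hf : Bdd f) (hg : Bdd g) : Bdd (fun ω => f ω * g ω) := by
  obtain ⟨C, hC⟩ := hf
  obtain ⟨D, hD⟩ := hg
  refine ⟨C * D, fun ω => ?_⟩
  rw [abs_mul]
  exact mul_le_mul (hC ω) (hD ω) (abs_nonneg _) ((abs_nonneg _).trans (hC ω))

theorem bdd_smul (c : ℝ) {f : Ω → ℝ} (hf : Bdd f) : Bdd (fun ω => c * f ω) :=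
  bdd_mul (bdd_const c) hf

theorem bdd_neg {f : Ω → ℝ} (hf : Bdd f) : Bdd (fun ω => - f ω) := by
  obtain ⟨C, hC⟩ := hf
  exact ⟨C, fun ω => by rw [abs_neg]; exact hC ω⟩

theorem bdd_sub {f g : Ω → ℝ} (hf : Bdd f) (hg : Bdd g) : Bdd (fun ω => f ω - g ω) := by
  have := bdd_add hf (bdd_neg hg)
  simpa only [sub_eq_add_neg] using this

theorem bdd_sum {ι : Type*} (s : Finset ι) (f : ι → Ω → ℝ) (h : ∀ i ∈ s, Bdd (f i)) :
    Bdd (fun ω => ∑ i ∈ s, f i ω) := by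
  classical
  induction s using Finset.induction_on with
  | empty => simpa using bdd_const (Ω := Ω) 0
  | insert i s hi ih =>
    simp only [Finset.sum_insert hi]
    exact bdd_add (h i (Finset.mem_insert_self _ _))
      (ih fun j hj => h j (Finset.mem_insert_of_mem hj))

theorem bdd_comp {Ω' : Type*} {f : Ω → ℝ} (hf : Bdd f) (φ : Ω' → Ω) : Bdd (fun ω => f (φ ω)) := by
  obtain ⟨C, hC⟩ := hf
  exact ⟨C, fun ω => hC _⟩

end Bounded

namespace Mean

variable {d : ℕ} (M : Mean d)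

theorem E_const (c : ℝ) : M.E (fun _ => c) = c := by
  have h := M.smul c (fun _ => 1) (bdd_const 1)
  simp only [mul_one] at h
  rw [h, M.one, mul_one]

theorem E_neg {f : (Fin d → ℤ) → ℝ} (hf : Bdd f) : M.E (fun ω => - f ω) = - M.E f := by
  have h := M.smul (-1) f hf
  simp only [neg_mul, one_mul] at h
  exact h

theorem E_sub {f g : (Fin d → ℤ) → ℝ} (hf : Bdd f) (hg : Bdd g) :
    M.E (fun ω => f ω - g ω) = M.E f - M.E g := by
  have h := M.add f (fun ω => - g ω) hf (bdd_neg hg)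
  rw [M.E_neg hg] at h
  simpa only [sub_eq_add_neg] using h

theorem E_sum {ι : Type*} (s : Finset ι) (f : ι → (Fin d → ℤ) → ℝ) (h : ∀ i ∈ s, Bdd (f i)) :
    M.E (fun ω => ∑ i ∈ s, f i ω) = ∑ i ∈ s, M.E (f i) := by
  classical
  induction s using Finset.induction_on with
  | empty => simpa using M.E_const 0
  | insert i s hi ih =>
    simp only [Finset.sum_insert hi]
    rw [M.add _ _ (h i (Finset.mem_insert_self _ _))
      (bdd_sum s f fun j hj => h j (Finset.mem_insert_of_mem hj)),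
      ih fun j hj => h j (Finset.mem_insert_of_mem hj)]

theorem E_mono {f g : (Fin d → ℤ) → ℝ} (hf : Bdd f) (hg : Bdd g) (h : ∀ ω, f ω ≤ g ω) :
    M.E f ≤ M.E g := by
  have h1 := M.nonneg (fun ω => g ω - f ω) (bdd_sub hg hf) (fun ω => sub_nonneg.2 (h ω))
  rw [M.E_sub hg hf] at h1
  linarith

theorem E_le {f : (Fin d → ℤ) → ℝ} {C : ℝ} (hf : Bdd f) (h : ∀ ω, f ω ≤ C) : M.E f ≤ C := by
  have := M.E_mono hf (bdd_const C) h
  rwa [M.E_const] at this

theorem abs_E_le {f : (Fin d → ℤ) → ℝ} {C : ℝ} (h : ∀ ω, |f ω| ≤ C) : |M.E f| ≤ C := by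
  have hf : Bdd f := ⟨C, h⟩
  rw [abs_le]
  constructor
  · have h1 := M.E_le (bdd_neg hf) (fun ω => (neg_le_abs (f ω)).trans (h ω))
    rw [M.E_neg hf] at h1
    linarith
  · exact M.E_le hf (fun ω => (le_abs_self _).trans (h ω))

/-- Cauchy-Schwarz with a factor bounded by `1`. -/
theorem sq_E_mul_le {f g : (Fin d → ℤ) → ℝ} (hf : ∀ ω, |f ω| ≤ 1) (hg : Bdd g) :
    (M.E (fun ω => f ω * g ω)) ^ 2 ≤ M.E (fun ω => g ω * g ω) := by
  have hfb : Bdd f := ⟨1, hf⟩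
  have hfg := bdd_mul hfb hg
  have hgg := bdd_mul hg hg
  set t := M.E (fun ω => f ω * g ω) with ht
  have h1 : M.E (fun ω => 2 * t * (f ω * g ω)) ≤ M.E (fun ω => g ω * g ω + t ^ 2) := by
    apply M.E_mono (bdd_smul _ hfg) (bdd_add hgg (bdd_const _))
    intro ω
    have h2 : f ω ^ 2 ≤ 1 := by
      have := hf ω
      rw [← sq_abs]
      exact pow_le_one₀ (abs_nonneg _) this
    nlinarith [sq_nonneg (g ω - t * f ω), mul_nonneg (sq_nonneg t) (sub_nonneg.2 h2)]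
  rw [M.smul (2 * t) _ hfg, M.add _ _ hgg (bdd_const _), M.E_const, ← ht] at h1
  nlinarith

end Mean

/-! ### The function `lz` -/

theorem lam_or' (n : ℕ) : lam n = 1 ∨ lam n = -1 := neg_one_pow_eq_or ℝ _

theorem lz_zero : lz 0 = 0 := by simp [lz]

theorem lz_cases (n : ℤ) : lz n = 0 ∨ lz n = 1 ∨ lz n = -1 := by
  unfold lz
  split_ifs
  · left; rfl
  · right; exact lam_or' _

theorem abs_lz_le (n : ℤ) : |lz n| ≤ 1 := by
  rcases lz_cases n with h | h | h <;> rw [h] <;> simp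

theorem lz_neg (n : ℤ) : lz (-n) = lz n := by
  unfold lz
  simp

theorem lz_natCast {n : ℕ} (hn : n ≠ 0) : lz (n : ℤ) = lam n := by
  unfold lz
  simp [hn]

theorem lz_prime_mul {p : ℕ} (hp : p.Prime) (n : ℤ) : lz ((p : ℤ) * n) = - lz n := by
  unfold lz
  by_cases hn : n = 0
  · simp [hn]
  · have hp0 : (p : ℤ) ≠ 0 := by exact_mod_cast hp.ne_zero
    rw [if_neg (mul_ne_zero hp0 hn), if_neg hn, Int.natAbs_mul, Int.natAbs_natCast]
    unfold lam
    have hn' : n.natAbs ≠ 0 := Int.natAbs_ne_zero.2 hn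
    rw [ArithmeticFunction.cardFactors_mul hp.ne_zero hn',
      ArithmeticFunction.cardFactors_apply_prime hp, pow_add, pow_one]
    ring

theorem sign_lz (n : ℤ) : ((SignType.sign (lz n) : SignType) : ℝ) = lz n := by
  rcases lz_cases n with h | h | h <;> rw [h] <;> simp

/-! ### Forms -/

section Forms

variable {m : ℕ}

theorem frm_shift (a : ℤ) (b : Fin m → ℤ) (n w : ℤ) (u v : Fin m → ℤ) :
    frm a b (n + w) (u + v) = frm a b n u + (w + ∑ l, b l * v l) := by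
  unfold frm
  simp only [Pi.add_apply, mul_add, Finset.sum_add_distrib]
  ring

theorem frm_add (a : ℤ) (b : Fin m → ℤ) (n w : ℤ) (u : Fin m → ℤ) :
    frm a b (n + w) u = frm a b n u + w := by
  unfold frm
  ring

theorem frm_mul (a : ℤ) (b : Fin m → ℤ) (p n : ℤ) (u : Fin m → ℤ) :
    frm (p * a) b (p * n) (fun l => p * u l) = p * frm a b n u := by
  unfold frm
  rw [mul_add, mul_add, Finset.mul_sum]
  congr 1
  apply Finset.sum_congr rfl
  intro l _
  ring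

theorem frm_add_left (a a' : ℤ) (b : Fin m → ℤ) (n : ℤ) (u : Fin m → ℤ) :
    frm (a + a') b n u = frm a b n u + a' := by
  unfold frm
  ring

/-- the vector `(s, s', v)` -/
def vec (s s' : ℤ) (v : Fin m → ℤ) : Fin (m + 2) → ℤ := Fin.cons s (Fin.cons s' v)

@[simp] theorem vec_zero (s s' : ℤ) (v : Fin m → ℤ) : vec s s' v 0 = s := rfl

@[simp] theorem vec_one (s s' : ℤ) (v : Fin m → ℤ) : vec s s' v 1 = s' := rfl

@[simp] theorem par_vec (s s' : ℤ) (v : Fin m → ℤ) : par (vec s s' v) = v := rfl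

theorem par_add (ω ω' : Fin (m + 2) → ℤ) : par (ω + ω') = par ω + par ω' := rfl

end Forms

/-! ### The four point function -/

section Gamma

variable {m : ℕ} (M : Mean (m + 2)) (a : ℤ) (b : Fin m → ℤ)

theorem bdd_lz {Ω : Type*} (φ : Ω → ℤ) : Bdd (fun ω => lz (φ ω)) := ⟨1, fun _ => abs_lz_le _⟩

theorem abs_mul_le_one {x y : ℝ} (hx : |x| ≤ 1) (hy : |y| ≤ 1) : |x * y| ≤ 1 := by
  rw [abs_mul]
  exact mul_le_one₀ hx (abs_nonneg _) hy

/-- the product `lz (z + s) * lz (z' + s)` -/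
noncomputable def pr2 (s : ℤ) (ω : Fin (m + 2) → ℤ) : ℝ :=
  lz (frm a b (ω 0) (par ω) + s) * lz (frm a b (ω 1) (par ω) + s)

theorem abs_pr2_le (s : ℤ) (ω : Fin (m + 2) → ℤ) : |pr2 a b s ω| ≤ 1 :=
  abs_mul_le_one (abs_lz_le _) (abs_lz_le _)

theorem bdd_pr2 (s : ℤ) : Bdd (pr2 (m := m) a b s) := ⟨1, abs_pr2_le a b s⟩

theorem pr2_shift (s s' : ℤ) (ω : Fin (m + 2) → ℤ) :
    pr2 a b s (ω + vec s' s' 0) = pr2 a b (s + s') ω := by
  unfold pr2
  simp only [Pi.add_apply, vec_zero, vec_one, par_add, par_vec, frm_add, add_zero]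
  rw [add_assoc, add_assoc, add_comm s' s]

theorem E_pr2 (s s' : ℤ) :
    M.E (fun ω => pr2 a b s ω * pr2 a b s' ω) = Gam M a b (s' - s) := by
  have h := M.shift (vec (-s) (-s) 0) (fun ω => pr2 a b s ω * pr2 a b s' ω)
    (bdd_mul (bdd_pr2 a b s) (bdd_pr2 a b s'))
  rw [← h]
  unfold Gam
  congr 1
  funext ω
  rw [pr2_shift, pr2_shift]
  unfold pr2
  rw [add_neg_cancel, add_zero, add_zero, ← sub_eq_add_neg]
  ring

theorem Gam_neg (s : ℤ) : Gam M a b (-s) = Gam M a b s := by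
  have h1 := E_pr2 M a b s 0
  have h2 := E_pr2 M a b 0 s
  rw [zero_sub] at h1
  rw [sub_zero] at h2
  rw [← h1, ← h2]
  congr 1
  funext ω
  ring

theorem Gam_le_one (s : ℤ) : Gam M a b s ≤ 1 := by
  have h := E_pr2 M a b 0 s
  rw [sub_zero] at h
  rw [← h]
  exact (le_abs_self _).trans
    (M.abs_E_le fun ω => abs_mul_le_one (abs_pr2_le a b 0 ω) (abs_pr2_le a b s ω))

/-- The second moment of a sum of the products `pr2`. -/
theorem E_sum_sq {ι : Type*} (S : Finset ι) (κ : ι → ℤ) :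
    M.E (fun ω => (∑ i ∈ S, pr2 a b (κ i) ω) * (∑ i ∈ S, pr2 a b (κ i) ω)) =
      ∑ i ∈ S, ∑ j ∈ S, Gam M a b (κ j - κ i) := by
  have e : (fun ω : Fin (m + 2) → ℤ => (∑ i ∈ S, pr2 a b (κ i) ω) * (∑ i ∈ S, pr2 a b (κ i) ω)) =
      fun ω => ∑ i ∈ S, ∑ j ∈ S, pr2 a b (κ i) ω * pr2 a b (κ j) ω := by
    funext ω
    rw [Finset.sum_mul_sum]
  rw [e, M.E_sum S _ (fun i _ => bdd_sum S _ fun j _ => bdd_mul (bdd_pr2 a b _) (bdd_pr2 a b _))]
  apply Finset.sum_congr rfl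
  intro i _
  rw [M.E_sum S _ (fun j _ => bdd_mul (bdd_pr2 a b _) (bdd_pr2 a b _))]
  apply Finset.sum_congr rfl
  intro j _
  exact E_pr2 M a b _ _

end Gamma

end Pool.Agent.H91.LF
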