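import Pool.Agent.H91.LF.Basic

/-!
# Module [CORE]: the mean of the product vanishes
-/

set_option autoImplicit false

open Finset Filter Topology

namespace Pool.Agent.H91.LF

open Pool.Agent.H24.MR (lam)
open Pool.Agent.H24.T2 (Pset)

section

variable {m k : ℕ}

open Classical in
/-- The product over the forms `i ≠ j`, restricted to a residue class. -/
noncomputable def Hpr (a : Fin k → ℤ) (b : Fin k → Fin m → ℤ) (W : ℕ)
    (c : Fin (m + 2) → ℤ) (j : Fin k) (ω : Fin (m + 2) → ℤ) : ℝ :=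
  if ∀ i, ω i ≡ c i [ZMOD W] then
    ∏ i ∈ Finset.univ.erase j,
      (lz (frm (a i) (b i) (ω 0) (par ω)) * lz (frm (a i) (b i) (ω 1) (par ω))) else 0

theorem abs_prod_le_one {ι : Type*} (s : Finset ι) (f : ι → ℝ) (h : ∀ i ∈ s, |f i| ≤ 1) :
    |∏ i ∈ s, f i| ≤ 1 := by
  rw [Finset.abs_prod]
  exact Finset.prod_le_one (fun i _ => abs_nonneg _) h

theorem abs_Hpr_le (a : Fin k → ℤ) (b : Fin k → Fin m → ℤ) (W : ℕ)
    (c : Fin (m + 2) → ℤ) (j : Fin k) (ω : Fin (m + 2) → ℤ) : |Hpr a b W c j ω| ≤ 1 := by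
  unfold Hpr
  split_ifs
  · exact abs_prod_le_one _ _ fun i _ => abs_mul_le_one (abs_lz_le _) (abs_lz_le _)
  · simp

theorem abs_Fpr_le (a : Fin k → ℤ) (b : Fin k → Fin m → ℤ) (W : ℕ)
    (c : Fin (m + 2) → ℤ) (ω : Fin (m + 2) → ℤ) : |Fpr a b W c ω| ≤ 1 := by
  unfold Fpr
  split_ifs
  · exact abs_prod_le_one _ _ fun i _ => abs_mul_le_one (abs_lz_le _) (abs_lz_le _)
  · simp

theorem bdd_Fpr (a : Fin k → ℤ) (b : Fin k → Fin m → ℤ) (W : ℕ)
    (c : Fin (m + 2) → ℤ) : Bdd (Fpr a b W c) := ⟨1, abs_Fpr_le a b W c⟩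

theorem modEq_shift_iff {W : ℕ} {x c s : ℤ} (hs : (W : ℤ) ∣ s) :
    x + s ≡ c [ZMOD W] ↔ x ≡ c [ZMOD W] := by
  have h : x + s ≡ x [ZMOD W] := by
    rw [Int.modEq_iff_dvd]
    simpa using (dvd_neg.2 hs)
  exact ⟨fun h1 => h.symm.trans h1, fun h1 => h.trans h1⟩

theorem vec_dvd {W : ℕ} {s s' : ℤ} {v : Fin m → ℤ} (h1 : (W : ℤ) ∣ s) (h2 : (W : ℤ) ∣ s')
    (h3 : ∀ l, (W : ℤ) ∣ v l) (i : Fin (m + 2)) : (W : ℤ) ∣ vec s s' v i := by
  refine Fin.cases h1 (fun i => ?_) i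
  refine Fin.cases h2 (fun i => ?_) i
  exact h3 i

/-- A translation isolates the factor `j`. -/
theorem Fpr_shift (a a' : Fin k → ℤ) (b : Fin k → Fin m → ℤ) (W : ℕ)
    (c : Fin (m + 2) → ℤ) (j : Fin k) (w : ℤ) (v : Fin m → ℤ) (s : ℤ)
    (hW : (W : ℤ) ∣ w) (hWv : ∀ l, (W : ℤ) ∣ v l)
    (h : ∀ i, i ≠ j → a' i + (w + ∑ l, b i l * v l) = a i)
    (hj : a' j + (w + ∑ l, b j l * v l) = a j + s) (ω : Fin (m + 2) → ℤ) :
    Fpr a' b W c (ω + vec w w v) = Hpr a b W c j ω * pr2 (a j) (b j) s ω := by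
  classical
  have hcl : (∀ i, (ω + vec w w v) i ≡ c i [ZMOD W]) ↔ ∀ i, ω i ≡ c i [ZMOD W] := by
    constructor
    · intro h1 i
      exact (modEq_shift_iff (vec_dvd hW hW hWv i)).1 (h1 i)
    · intro h1 i
      exact (modEq_shift_iff (vec_dvd hW hW hWv i)).2 (h1 i)
  have key : ∀ i : Fin k, ∀ n : ℤ, frm (a' i) (b i) (n + w) (par ω + v) =
      frm (a' i + (w + ∑ l, b i l * v l)) (b i) n (par ω) := by
    intro i n
    rw [frm_shift, frm_add_left]
  unfold Fpr Hpr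
  simp only [hcl]
  split_ifs with hc
  · rw [← Finset.mul_prod_erase Finset.univ _ (Finset.mem_univ j), mul_comm]
    congr 1
    · apply Finset.prod_congr rfl
      intro i hi
      have hij : i ≠ j := (Finset.mem_erase.1 hi).1
      simp only [Pi.add_apply, vec_zero, vec_one, par_add, par_vec, key, h i hij]
    · unfold pr2
      simp only [Pi.add_apply, vec_zero, vec_one, par_add, par_vec, key, hj, frm_add_left]
  · simp

open Classical in
/-- The dilation identity. -/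
theorem Fpr_dil {M : Mean (m + 2)} (hM : Dil M) (a : Fin k → ℤ) (b : Fin k → Fin m → ℤ) (W : ℕ)
    (c : Fin (m + 2) → ℤ) (p : ℕ) (hp : p.Prime) (hpW : (p : ℤ) ≡ 1 [ZMOD W]) :
    M.E (fun ω => (p : ℝ) ^ (m + 2) *
      if ∀ i, (p : ℤ) ∣ ω i then Fpr (fun i => (p : ℤ) * a i) b W c ω else 0) =
      M.E (Fpr a b W c) := by
  have hp0 : (p : ℤ) ≠ 0 := by exact_mod_cast hp.ne_zero
  have h1 := hM p hp (fun ω => Fpr (fun i => (p : ℤ) * a i) b W c (fun i => (p : ℤ) * ω i))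
    ⟨1, fun ω => abs_Fpr_le _ _ _ _ _⟩
  have e1 : (fun ω : Fin (m + 2) → ℤ => (p : ℝ) ^ (m + 2) *
      if ∀ i, (p : ℤ) ∣ ω i then Fpr (fun i => (p : ℤ) * a i) b W c ω else 0) =
      fun ω => (p : ℝ) ^ (m + 2) * if ∀ i, (p : ℤ) ∣ ω i then
        Fpr (fun i => (p : ℤ) * a i) b W c (fun i => (p : ℤ) * (ω i / p)) else 0 := by
    funext ω
    by_cases h : ∀ i, (p : ℤ) ∣ ω i
    · rw [if_pos h, if_pos h]
      congr 2
      funext i
      exact (Int.mul_ediv_cancel' (h i)).symm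
    · rw [if_neg h, if_neg h]
  have e2 : (fun ω : Fin (m + 2) → ℤ =>
      Fpr (fun i => (p : ℤ) * a i) b W c (fun i => (p : ℤ) * ω i)) = Fpr a b W c := by
    funext ω
    have hcl : (∀ i, (p : ℤ) * ω i ≡ c i [ZMOD W]) ↔ ∀ i, ω i ≡ c i [ZMOD W] := by
      have hx : ∀ x : ℤ, (p : ℤ) * x ≡ x [ZMOD W] := fun x => by
        have := hpW.mul_right x
        rwa [one_mul] at this
      constructor
      · intro h1 i
        exact (hx _).symm.trans (h1 i)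
      · intro h1 i
        exact (hx _).trans (h1 i)
    unfold Fpr
    simp only [hcl]
    split_ifs with hc
    · apply Finset.prod_congr rfl
      intro i _
      have h2 : ∀ n : ℤ, frm ((p : ℤ) * a i) (b i) ((p : ℤ) * n)
          (par (fun i => (p : ℤ) * ω i)) = p * frm (a i) (b i) n (par ω) := fun n =>
        frm_mul _ _ _ _ _
      rw [h2, h2, lz_prime_mul hp, lz_prime_mul hp]
      ring
    · rfl
  rw [e1, h1, e2]

/-- The data seen through the window. -/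
noncomputable def xx (b : Fin k → Fin m → ℤ) (W : ℕ) (ω : Fin (m + 2) → ℤ) :
    (Fin (m + 2) → ZMod W) × (Fin k → SignType × SignType) :=
  (fun i => (ω i : ZMod W), fun i => (SignType.sign (lz (frm 0 (b i) (ω 0) (par ω))),
    SignType.sign (lz (frm 0 (b i) (ω 1) (par ω)))))

theorem xx_window (b : Fin k → Fin m → ℤ) (W : ℕ) (n : ℕ) (ω ω' : Fin (m + 2) → ℤ)
    (h : ∀ j : ℕ, j < n →
      xx b W (ω + (j : ℤ) • vec 1 1 0) = xx b W (ω' + (j : ℤ) • vec 1 1 0))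
    (J : ℤ) (hJ0 : 0 ≤ J) (hJ : J < n) (i : Fin k) :
    lz (frm J (b i) (ω 0) (par ω)) = lz (frm J (b i) (ω' 0) (par ω')) ∧
    lz (frm J (b i) (ω 1) (par ω)) = lz (frm J (b i) (ω' 1) (par ω')) := by
  obtain ⟨j, rfl⟩ := Int.eq_ofNat_of_zero_le hJ0
  have h1 := congrFun (congrArg Prod.snd (h j (by exact_mod_cast hJ))) i
  have e : ∀ (ω : Fin (m + 2) → ℤ) (n : ℤ),
      frm 0 (b i) (n + (j : ℤ)) (par ω) = frm (j : ℤ) (b i) n (par ω) := by
    intro ω n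
    unfold frm
    ring
  have hpar : ∀ ω : Fin (m + 2) → ℤ, par (ω + (j : ℤ) • vec 1 1 0) = par ω := by
    intro ω
    funext l
    have : (vec 1 1 0 : Fin (m + 2) → ℤ) l.succ.succ = 0 := rfl
    simp [par, this]
  have h0 : ∀ ω : Fin (m + 2) → ℤ,
      (ω + (j : ℤ) • vec 1 1 0 : Fin (m + 2) → ℤ) 0 = ω 0 + (j : ℤ) := by
    intro ω
    simp
  have h1' : ∀ ω : Fin (m + 2) → ℤ,
      (ω + (j : ℤ) • vec 1 1 0 : Fin (m + 2) → ℤ) 1 = ω 1 + (j : ℤ) := by
    intro ω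
    simp
  simp only [xx, hpar, h0, h1', e] at h1
  rw [Prod.mk.injEq] at h1
  obtain ⟨h2, h3⟩ := h1
  rw [← sign_lz (frm (j : ℤ) (b i) (ω 0) (par ω)), ← sign_lz (frm (j : ℤ) (b i) (ω 1) (par ω)),
    ← sign_lz (frm (j : ℤ) (b i) (ω' 0) (par ω')), ← sign_lz (frm (j : ℤ) (b i) (ω' 1) (par ω')),
    h2, h3]
  exact ⟨rfl, rfl⟩

/-- the translate `ω + W κ + (s, s, 0)` -/
def sh (W : ℕ) (κ : Fin (m + 2) → ℤ) (s : ℤ) (ω : Fin (m + 2) → ℤ) : Fin (m + 2) → ℤ :=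
  ω + (W : ℤ) • κ + vec s s 0

theorem sh_zero (W : ℕ) (κ : Fin (m + 2) → ℤ) (s : ℤ) (ω : Fin (m + 2) → ℤ) :
    sh W κ s ω 0 = ω 0 + W * κ 0 + s := by
  simp [sh]

theorem sh_one (W : ℕ) (κ : Fin (m + 2) → ℤ) (s : ℤ) (ω : Fin (m + 2) → ℤ) :
    sh W κ s ω 1 = ω 1 + W * κ 1 + s := by
  simp [sh]

theorem sh_par (W : ℕ) (κ : Fin (m + 2) → ℤ) (s : ℤ) (ω : Fin (m + 2) → ℤ) (l : Fin m) :
    par (sh W κ s ω) l = par ω l + W * par κ l := by
  have h1 : (vec s s 0 : Fin (m + 2) → ℤ) l.succ.succ = 0 := rfl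
  simp [par, sh, h1]

/-- The window lemma. -/
theorem Fpr_window (a : Fin k → ℤ) (b : Fin k → Fin m → ℤ) (W : ℕ)
    (c : Fin (m + 2) → ℤ) (R₀ p n : ℕ)
    (hR : ∀ i, |a i| + W * ∑ l, |b i l| ≤ R₀) (hp : 0 < p) (hn : p * (2 * R₀ + W) ≤ n)
    (ω ω' : Fin (m + 2) → ℤ)
    (h : ∀ j : ℕ, j < n →
      xx b W (ω + (j : ℤ) • vec 1 1 0) = xx b W (ω' + (j : ℤ) • vec 1 1 0))
    (hW : 0 < W) (κ : Fin (m + 2) → ℤ) (hκ : ∀ i, 0 ≤ κ i ∧ κ i < p) :
    Fpr (fun i => (p : ℤ) * a i) b W c (sh W κ (p * R₀) ω) =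
    Fpr (fun i => (p : ℤ) * a i) b W c (sh W κ (p * R₀) ω') := by
  classical
  have hp' : (0 : ℤ) < p := by exact_mod_cast hp
  have hW' : (0 : ℤ) < W := by exact_mod_cast hW
  have hnpos : 0 < n := by
    have : 0 < p * (2 * R₀ + W) := by positivity
    omega
  have hclass : ∀ i, ω i ≡ ω' i [ZMOD W] := by
    intro i
    have h1 := congrFun (congrArg Prod.fst (h 0 hnpos)) i
    simp only [xx, Nat.cast_zero, zero_smul, add_zero] at h1
    exact (ZMod.intCast_eq_intCast_iff _ _ _).1 h1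
  have hcl : (∀ i, sh W κ (p * R₀) ω i ≡ c i [ZMOD W]) ↔
      ∀ i, sh W κ (p * R₀) ω' i ≡ c i [ZMOD W] := by
    have h2 : ∀ i, sh W κ (p * R₀) ω i ≡ sh W κ (p * R₀) ω' i [ZMOD W] := by
      intro i
      simp only [sh, Pi.add_apply]
      exact ((hclass i).add_right _).add_right _
    exact ⟨fun h1 i => (h2 i).symm.trans (h1 i), fun h1 i => (h2 i).trans (h1 i)⟩
  -- the offset
  set J : Fin k → ℤ → ℤ := fun i x => p * a i + W * x + p * R₀ + ∑ l, b i l * (W * par κ l)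
    with hJ
  have hfrm : ∀ (i : Fin k) (ω : Fin (m + 2) → ℤ) (x y : ℤ),
      frm ((p : ℤ) * a i) (b i) (y + W * x + p * R₀)
        (par (sh W κ (p * R₀) ω)) = frm (J i x) (b i) y (par ω) := by
    intro i ω x y
    have : par (sh W κ (p * R₀) ω) = fun l => par ω l + W * par κ l := by
      funext l
      exact sh_par _ _ _ _ _
    rw [this]
    unfold frm
    simp only [hJ, mul_add, Finset.sum_add_distrib]
    ring
  have hJb : ∀ (i : Fin k) (x : ℤ), 0 ≤ x → x < p → 0 ≤ J i x ∧ J i x < n := by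
    intro i x hx0 hx
    have hsum : |∑ l, b i l * (W * par κ l)| ≤ p * (W * ∑ l, |b i l|) := by
      calc |∑ l, b i l * (W * par κ l)| ≤ ∑ l, |b i l * (W * par κ l)| :=
            Finset.abs_sum_le_sum_abs _ _
        _ ≤ ∑ l, p * (W * |b i l|) := by
            apply Finset.sum_le_sum
            intro l _
            have hl := hκ l.succ.succ
            have h3 : par κ l = κ l.succ.succ := rfl
            rw [h3, abs_mul, abs_mul, abs_of_pos hW', abs_of_nonneg hl.1]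
            have h4 : 0 ≤ |b i l| := abs_nonneg _
            have h5 : |b i l| * (W * κ l.succ.succ) ≤ |b i l| * (W * p) := by
              apply mul_le_mul_of_nonneg_left _ h4
              exact mul_le_mul_of_nonneg_left hl.2.le hW'.le
            linarith [h5, show |b i l| * ((W : ℤ) * p) = p * (W * |b i l|) by ring]
        _ = p * (W * ∑ l, |b i l|) := by
            rw [Finset.mul_sum, Finset.mul_sum]
    have h1 := abs_le.1 hsum
    have h2 := abs_le.1 (le_refl |a i|)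
    have h3 : (p : ℤ) * (|a i| + W * ∑ l, |b i l|) ≤ p * R₀ :=
      mul_le_mul_of_nonneg_left (hR i) hp'.le
    have h4 : (p : ℤ) * (-|a i|) ≤ p * a i := mul_le_mul_of_nonneg_left h2.1 hp'.le
    have h5 : (p : ℤ) * a i ≤ p * |a i| := mul_le_mul_of_nonneg_left h2.2 hp'.le
    have h6 : (0 : ℤ) ≤ W * x := mul_nonneg hW'.le hx0
    have h7 : (W : ℤ) * x < W * p := mul_lt_mul_of_pos_left hx hW'
    have h8 : (p : ℤ) * (2 * R₀ + W) ≤ n := by exact_mod_cast hn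
    simp only [hJ]
    constructor
    · nlinarith
    · nlinarith
  have hterm : ∀ i : Fin k,
      lz (frm ((p : ℤ) * a i) (b i) (sh W κ (p * R₀) ω 0) (par (sh W κ (p * R₀) ω))) *
      lz (frm ((p : ℤ) * a i) (b i) (sh W κ (p * R₀) ω 1) (par (sh W κ (p * R₀) ω))) =
      lz (frm ((p : ℤ) * a i) (b i) (sh W κ (p * R₀) ω' 0) (par (sh W κ (p * R₀) ω'))) *
      lz (frm ((p : ℤ) * a i) (b i) (sh W κ (p * R₀) ω' 1) (par (sh W κ (p * R₀) ω'))) := by
    intro i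
    simp only [sh_zero, sh_one]
    rw [hfrm, hfrm, hfrm, hfrm]
    have hb0 := hJb i (κ 0) (hκ 0).1 (hκ 0).2
    have hb1 := hJb i (κ 1) (hκ 1).1 (hκ 1).2
    rw [(xx_window b W n ω ω' h _ hb0.1 hb0.2 i).1, (xx_window b W n ω ω' h _ hb1.1 hb1.2 i).2]
  unfold Fpr
  simp only [hcl]
  split_ifs with hc
  · exact Finset.prod_congr rfl fun i _ => hterm i
  · rfl

end

end Pool.Agent.H91.LF
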