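import Pool.Agent.H91.LF.Core

/-!
# Module [CORE]: final assembly
-/

set_option autoImplicit false

open Finset Filter Topology

namespace Pool.Agent.H91.LF

open Pool.Agent.H24.MR (lam)
open Pool.Agent.H24.T2 (Pset)

section

variable {m k : ℕ}

/-- Double sums over an interval. -/
theorem double_sum_le (Γ : ℤ → ℝ) (h0 : ∀ s, 0 ≤ Γ s) (hs : ∀ s, Γ (-s) = Γ s) (H : ℕ) :
    ∑ i ∈ Finset.range H, ∑ j ∈ Finset.range H, Γ ((j : ℤ) - i) ≤
      H * (2 * ∑ s ∈ Finset.range H, Γ s) := by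
  classical
  have key : ∀ i ∈ Finset.range H, ∑ j ∈ Finset.range H, Γ ((j : ℤ) - i) ≤
      2 * ∑ s ∈ Finset.range H, Γ s := by
    intro i hi
    have hi' := Finset.mem_range.1 hi
    rw [← Finset.sum_filter_add_sum_filter_not (Finset.range H) (fun j => i ≤ j)]
    have h1 : ∑ j ∈ (Finset.range H).filter (fun j => i ≤ j), Γ ((j : ℤ) - i) ≤
        ∑ s ∈ Finset.range H, Γ s := by
      have e : ∑ j ∈ (Finset.range H).filter (fun j => i ≤ j), Γ ((j : ℤ) - i) =
          ∑ s ∈ ((Finset.range H).filter (fun j => i ≤ j)).image (fun j => j - i), Γ (s : ℤ) := by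
        rw [Finset.sum_image]
        · apply Finset.sum_congr rfl
          intro j hj
          have := (Finset.mem_filter.1 hj).2
          rw [Nat.cast_sub this]
        · intro x hx y hy hxy
          have h1 := (Finset.mem_filter.1 hx).2
          have h2 := (Finset.mem_filter.1 hy).2
          simp only at hxy
          omega
      rw [e]
      apply Finset.sum_le_sum_of_subset_of_nonneg
      · intro s hs
        obtain ⟨j, hj, rfl⟩ := Finset.mem_image.1 hs
        have := Finset.mem_range.1 (Finset.mem_filter.1 hj).1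
        exact Finset.mem_range.2 (by omega)
      · intro s _ _
        exact h0 _
    have h2 : ∑ j ∈ (Finset.range H).filter (fun j => ¬ i ≤ j), Γ ((j : ℤ) - i) ≤
        ∑ s ∈ Finset.range H, Γ s := by
      have e : ∑ j ∈ (Finset.range H).filter (fun j => ¬ i ≤ j), Γ ((j : ℤ) - i) =
          ∑ s ∈ ((Finset.range H).filter (fun j => ¬ i ≤ j)).image (fun j => i - j),
            Γ (s : ℤ) := by
        rw [Finset.sum_image]
        · apply Finset.sum_congr rfl
          intro j hj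
          have := (Finset.mem_filter.1 hj).2
          rw [Nat.cast_sub (by omega : j ≤ i), ← hs, neg_sub]
        · intro x hx y hy hxy
          have h1 := (Finset.mem_filter.1 hx).2
          have h2 := (Finset.mem_filter.1 hy).2
          simp only at hxy
          omega
      rw [e]
      apply Finset.sum_le_sum_of_subset_of_nonneg
      · intro s hs
        obtain ⟨j, hj, rfl⟩ := Finset.mem_image.1 hs
        exact Finset.mem_range.2 (by omega)
      · intro s _ _
        exact h0 _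
    linarith
  calc _ ≤ ∑ i ∈ Finset.range H, 2 * ∑ s ∈ Finset.range H, Γ s := Finset.sum_le_sum key
    _ = _ := by rw [Finset.sum_const, Finset.card_range, nsmul_eq_mul]

/-- The case where the form is already isolated by translations. -/
theorem core_zero {M : Mean (m + 2)} (a : Fin k → ℤ) (b : Fin k → Fin m → ℤ) (W : ℕ)
    (c : Fin (m + 2) → ℤ) (j : Fin k) (hW : 0 < W) (w : ℤ) (v : Fin m → ℤ)
    (h0 : ∀ i, i ≠ j → w + ∑ l, v l * b i l = 0) (hc : w + ∑ l, v l * b j l ≠ 0)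
    (hT : Two M (a j) (b j)) : M.E (Fpr a b W c) = 0 := by
  set C : ℤ := w + ∑ l, v l * b j l with hC
  have hWC : (W : ℤ) * C ≠ 0 := mul_ne_zero (by exact_mod_cast hW.ne') hc
  have hsum : ∀ (i : Fin k) (κ : ℤ), (κ * W) * w + ∑ l, b i l * ((κ * W) * v l) =
      (κ * W) * (w + ∑ l, v l * b i l) := by
    intro i κ
    rw [mul_add, Finset.mul_sum]
    congr 1
    apply Finset.sum_congr rfl
    intro l _
    ring
  have hE : ∀ κ : ℕ, M.E (Fpr a b W c) =
      M.E (fun ω => Hpr a b W c j ω * pr2 (a j) (b j) (W * C * κ) ω) := by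
    intro κ
    have h1 := M.shift (vec (((κ : ℤ) * W) * w) (((κ : ℤ) * W) * w)
      (fun l => ((κ : ℤ) * W) * v l)) (Fpr a b W c) (bdd_Fpr a b W c)
    rw [← h1]
    congr 1
    funext ω
    apply Fpr_shift a a b W c j
    · exact ⟨κ * w, by ring⟩
    · intro l
      exact ⟨κ * v l, by ring⟩
    · intro i hi
      rw [hsum, h0 i hi]
      ring
    · rw [hsum, ← hC]
      ring
  have key : ∀ η : ℝ, 0 < η → (M.E (Fpr a b W c)) ^ 2 ≤ 2 * η := by
    intro η hη
    obtain ⟨H₀, hH₀⟩ := hT.2 (W * C) η hWC hη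
    set H : ℕ := H₀ + 1 with hH
    have hH0 : (0 : ℝ) < H := by positivity
    have h1 := hH₀ H (by omega)
    have h2 : (H : ℝ) * M.E (Fpr a b W c) =
        M.E (fun ω => Hpr a b W c j ω * ∑ κ ∈ Finset.range H,
          pr2 (a j) (b j) (W * C * κ) ω) := by
      have e : (fun ω => Hpr a b W c j ω * ∑ κ ∈ Finset.range H,
          pr2 (a j) (b j) (W * C * κ) ω) = fun ω => ∑ κ ∈ Finset.range H,
          Hpr a b W c j ω * pr2 (a j) (b j) (W * C * κ) ω := by
        funext ω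
        rw [Finset.mul_sum]
      rw [e, M.E_sum _ _ (fun κ _ => bdd_mul ⟨1, abs_Hpr_le a b W c j⟩ (bdd_pr2 _ _ _))]
      rw [Finset.sum_congr rfl (fun κ _ => (hE κ).symm), Finset.sum_const, Finset.card_range,
        nsmul_eq_mul]
    have h3 := M.sq_E_mul_le (f := Hpr a b W c j)
      (g := fun ω => ∑ κ ∈ Finset.range H, pr2 (a j) (b j) (W * C * κ) ω)
      (abs_Hpr_le a b W c j) (bdd_sum _ _ fun κ _ => bdd_pr2 _ _ _)
    rw [← h2, E_sum_sq M (a j) (b j) (Finset.range H) (fun κ => (W : ℤ) * C * κ)] at h3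
    have h4 := double_sum_le (fun s => Gam M (a j) (b j) (W * C * s)) (fun s => hT.1 _)
      (fun s => by
        have := Gam_neg M (a j) (b j) (W * C * s)
        rwa [← mul_neg] at this) H
    have e5 : ∑ i ∈ Finset.range H, ∑ j' ∈ Finset.range H,
        Gam M (a j) (b j) ((W : ℤ) * C * (j' : ℤ) - (W : ℤ) * C * (i : ℤ)) =
        ∑ i ∈ Finset.range H, ∑ j' ∈ Finset.range H,
        Gam M (a j) (b j) (W * C * ((j' : ℤ) - i)) := by
      apply Finset.sum_congr rfl
      intro i _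
      apply Finset.sum_congr rfl
      intro j' _
      rw [mul_sub]
    rw [e5] at h3
    have h6 : (H : ℝ) ^ 2 * (M.E (Fpr a b W c)) ^ 2 ≤ (H : ℝ) ^ 2 * (2 * η) := by
      calc (H : ℝ) ^ 2 * (M.E (Fpr a b W c)) ^ 2 = ((H : ℝ) * M.E (Fpr a b W c)) ^ 2 := by ring
        _ ≤ _ := h3
        _ ≤ _ := h4
        _ ≤ H * (2 * (η * H)) := by
            have := mul_le_mul_of_nonneg_left (mul_le_mul_of_nonneg_left h1 (by norm_num :
              (0:ℝ) ≤ 2)) hH0.le
            exact this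
        _ = _ := by ring
    exact le_of_mul_le_mul_left h6 (by positivity)
  have h7 : (M.E (Fpr a b W c)) ^ 2 ≤ 0 := by
    apply le_of_forall_pos_le_add
    intro ε hε
    have := key (ε / 2) (by positivity)
    linarith
  exact pow_eq_zero_iff (two_ne_zero) |>.1 (le_antisymm h7 (sq_nonneg _))

open Classical in
/-- The extension by zero of the four point function along multiples of `D`. -/
noncomputable def Gd (M : Mean (m + 2)) (a : ℤ) (b : Fin m → ℤ) (C : ℤ) (D : ℕ) (s : ℤ) : ℝ :=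
  if (D : ℤ) ∣ s then Gam M a b (C * (s / D)) else 0

theorem Gd_sum (M : Mean (m + 2)) (a : ℤ) (b : Fin m → ℤ) (C : ℤ) (D : ℕ) (hD : 0 < D)
    (h0 : ∀ s, 0 ≤ Gam M a b s) (N : ℕ) :
    ∑ s ∈ Finset.range N, Gd M a b C D s ≤ ∑ t ∈ Finset.range (N / D + 1), Gam M a b (C * t) := by
  classical
  have hD' : (D : ℤ) ≠ 0 := by exact_mod_cast hD.ne'
  have e : ∑ s ∈ Finset.range N, Gd M a b C D s =
      ∑ s ∈ (Finset.range N).filter (fun s => D ∣ s), Gam M a b (C * ((s / D : ℕ) : ℤ)) := by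
    rw [Finset.sum_filter]
    apply Finset.sum_congr rfl
    intro s _
    unfold Gd
    by_cases h : D ∣ s
    · rw [if_pos (by exact_mod_cast h), if_pos h]
      congr 2
    · rw [if_neg (by exact_mod_cast h), if_neg h]
  have e2 : ∑ s ∈ (Finset.range N).filter (fun s => D ∣ s), Gam M a b (C * ((s / D : ℕ) : ℤ)) =
      ∑ t ∈ ((Finset.range N).filter (fun s => D ∣ s)).image (fun s => s / D),
        Gam M a b (C * (t : ℤ)) := by
    rw [Finset.sum_image]
    intro x hx y hy hxy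
    have h1 := (Finset.mem_filter.1 hx).2
    have h2 := (Finset.mem_filter.1 hy).2
    simp only at hxy
    rw [← Nat.div_mul_cancel h1, ← Nat.div_mul_cancel h2, hxy]
  rw [e, e2]
  apply Finset.sum_le_sum_of_subset_of_nonneg
  · intro t ht
    obtain ⟨s, hs, rfl⟩ := Finset.mem_image.1 ht
    have := Finset.mem_range.1 (Finset.mem_filter.1 hs).1
    exact Finset.mem_range.2 (Nat.lt_succ_of_le (Nat.div_le_div_right this.le))
  · intro t _ _
    exact h0 _

theorem Gd_neg (M : Mean (m + 2)) (a : ℤ) (b : Fin m → ℤ) (C : ℤ) (D : ℕ) (s : ℤ) :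
    Gd M a b C D (-s) = Gd M a b C D s := by
  unfold Gd
  by_cases h : (D : ℤ) ∣ s
  · rw [if_pos h, if_pos ((dvd_neg).2 h), Int.neg_ediv_of_dvd h, mul_neg, Gam_neg]
  · rw [if_neg h, if_neg (fun h' => h ((dvd_neg).1 h'))]

theorem Gd_nonneg (M : Mean (m + 2)) (a : ℤ) (b : Fin m → ℤ) (C : ℤ) (D : ℕ)
    (h0 : ∀ s, 0 ≤ Gam M a b s) (s : ℤ) : 0 ≤ Gd M a b C D s := by
  unfold Gd
  split_ifs
  · exact h0 _
  · exact le_rfl

theorem Gd_le_one (M : Mean (m + 2)) (a : ℤ) (b : Fin m → ℤ) (C : ℤ) (D : ℕ)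
    (s : ℤ) : Gd M a b C D s ≤ 1 := by
  unfold Gd
  split_ifs
  · exact Gam_le_one _ _ _ _
  · exact zero_le_one

theorem abs_ite_le {P : Prop} [Decidable P] {x : ℝ} (hx : |x| ≤ 1) :
    |if P then x else 0| ≤ 1 := by
  split_ifs
  · exact hx
  · simp

/-- The main case. -/
theorem core_pos {M : Mean (m + 2)} (h1 : StatementDEC) (h2 : StatementPE) (hM : Dil M)
    (a : Fin k → ℤ) (b : Fin k → Fin m → ℤ) (W : ℕ)
    (c : Fin (m + 2) → ℤ) (j : Fin k) (hW : 0 < W) (D : ℕ) (hD : 0 < D) (w : ℤ) (v : Fin m → ℤ)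
    (h0 : ∀ i, i ≠ j → (D : ℤ) * a i + w + ∑ l, v l * b i l = 0)
    (hc : (D : ℤ) * a j + w + ∑ l, v l * b j l ≠ 0)
    (hT : Two M (a j) (b j)) : M.E (Fpr a b W c) = 0 := by
  classical
  obtain ⟨c₀, hc₀, hDEC⟩ := h1
  set C : ℤ := (D : ℤ) * a j + w + ∑ l, v l * b j l with hC
  set Q : ℕ := 2 * D * W with hQdef
  have hQ : 0 < Q := by positivity
  have hWQ : W ∣ Q := ⟨2 * D, by rw [hQdef]; ring⟩
  have hQe : Even Q := ⟨D * W, by rw [hQdef]; ring⟩
  have hD' : (D : ℤ) ≠ 0 := by exact_mod_cast hD.ne'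
  -- the window
  set S₀ : ℤ := ∑ i, (|a i| + W * ∑ l, |b i l|) with hS₀
  have hterm0 : ∀ i, 0 ≤ |a i| + W * ∑ l, |b i l| := fun i => by positivity
  have hS₀0 : 0 ≤ S₀ := Finset.sum_nonneg fun i _ => hterm0 i
  set R₀ : ℕ := W * S₀.toNat with hR₀
  have hR₀' : ∀ i, |a i| + W * ∑ l, |b i l| ≤ R₀ := by
    intro i
    have h3 : |a i| + W * ∑ l, |b i l| ≤ S₀ :=
      Finset.single_le_sum (f := fun i => |a i| + W * ∑ l, |b i l|) (fun i _ => hterm0 i)
        (Finset.mem_univ i)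
    have h4 : S₀ ≤ ((W * S₀.toNat : ℕ) : ℤ) := by
      push_cast
      rw [Int.toNat_of_nonneg hS₀0]
      have : (1 : ℤ) ≤ W := by exact_mod_cast hW
      nlinarith
    exact h3.trans h4
  set R : ℕ := 2 * (2 * R₀ + W) with hR
  have hR0 : 0 < R := by omega
  have hWR : (W : ℤ) ∣ R₀ := by
    rw [hR₀]
    push_cast
    exact ⟨_, rfl⟩
  have main : ∀ ε : ℝ, 0 < ε → |M.E (Fpr a b W c)| ≤ ε := by
    intro ε hε
    obtain ⟨δ, hδ, m₁, hPE⟩ := h2 Q c₀ ((ε / 2) ^ 2) hQ hQe hc₀ (by positivity)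
    obtain ⟨H₀, hH₀⟩ := hT.2 C (δ / 2) hc (by positivity)
    have : NeZero W := ⟨hW.ne'⟩
    obtain ⟨M', hM', hdense, hg⟩ := hDEC (m + 2) M
      ((Fin (m + 2) → ZMod W) × (Fin k → SignType × SignType)) inferInstance (xx b W)
      (vec 1 1 0) Q W R (ε / 2) (max (max m₁ (D * H₀)) 1) hQ hW hWQ hR0 (by positivity)
    have hM1 : m₁ ≤ M' := (le_max_left _ _).trans ((le_max_left _ _).trans hM')
    have hM2 : D * H₀ ≤ M' := (le_max_right _ _).trans ((le_max_left _ _).trans hM')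
    have hM3 : 1 ≤ M' := (le_max_right _ _).trans hM'
    set P := Pset Q M' with hP
    have hmem : ∀ p ∈ P, (2 ^ M' < p ∧ p ≤ 2 ^ (M' + 1)) ∧ p.Prime ∧ p ≡ 1 [MOD Q] := by
      intro p hp
      have := Finset.mem_filter.1 hp
      exact ⟨Finset.mem_Ioc.1 this.1, this.2⟩
    have hPpos : (0 : ℝ) < (P.card : ℝ) := by
      refine lt_of_lt_of_le ?_ hdense
      have : (0 : ℝ) < Nat.totient Q := by exact_mod_cast Nat.totient_pos.2 hQ
      have : (0 : ℝ) < M' := by exact_mod_cast hM3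
      positivity
    -- the shift
    set κ : ℕ → ℤ := fun p => ((p : ℤ) - 1) / D with hκ
    have hdvd : ∀ p ∈ P, (Q : ℤ) ∣ (p : ℤ) - 1 := by
      intro p hp
      have := (hmem p hp).2.2
      exact (Nat.modEq_iff_dvd.1 this.symm)
    have hκD : ∀ p ∈ P, (D : ℤ) * κ p = (p : ℤ) - 1 := by
      intro p hp
      have h3 : (D : ℤ) ∣ (p : ℤ) - 1 :=
        dvd_trans ⟨2 * W, by rw [hQdef]; push_cast; ring⟩ (hdvd p hp)
      exact Int.mul_ediv_cancel' h3
    have hκW : ∀ p ∈ P, (W : ℤ) ∣ κ p := by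
      intro p hp
      obtain ⟨t, ht⟩ := hdvd p hp
      refine ⟨2 * t, ?_⟩
      have h3 := hκD p hp
      rw [ht, hQdef] at h3
      push_cast at h3
      apply mul_left_cancel₀ hD'
      rw [h3]
      ring
    -- the functions
    set g : ℕ → (Fin (m + 2) → ℤ) → ℝ := fun p ω =>
      Fpr (fun i => (p : ℤ) * a i) b W c (ω + vec ((p : ℤ) * R₀) ((p : ℤ) * R₀) 0) with hgdef
    have hDEC1 := hg g (fun p _ ω => abs_Fpr_le _ _ _ _ _) (by
      intro p hp ω ω' hx κ' hκ'
      have hpp := (hmem p hp).1.2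
      have hn : p * (2 * R₀ + W) ≤ R * 2 ^ M' := by
        calc p * (2 * R₀ + W) ≤ 2 ^ (M' + 1) * (2 * R₀ + W) := Nat.mul_le_mul_right _ hpp
          _ = R * 2 ^ M' := by rw [hR, pow_succ]; ring
      exact Fpr_window a b W c R₀ p (R * 2 ^ M') hR₀' (hmem p hp).2.1.pos hn ω ω' hx hW κ' hκ')
    -- the first mean
    have hE1 : ∀ p ∈ P, M.E (fun ω => (p : ℝ) ^ (m + 2) *
        if ∀ i, (p : ℤ) ∣ ω i then g p ω else 0) = M.E (Fpr a b W c) := by
      intro p hp
      have hpW : (p : ℤ) ≡ 1 [ZMOD W] := by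
        have h3 : (W : ℤ) ∣ (p : ℤ) - 1 :=
          dvd_trans (by exact_mod_cast hWQ) (hdvd p hp)
        exact (Int.modEq_iff_dvd.2 h3).symm
      have h3 := Fpr_dil hM a b W c p (hmem p hp).2.1 hpW
      have h4 := M.shift (vec ((p : ℤ) * R₀) ((p : ℤ) * R₀) 0) (fun ω => (p : ℝ) ^ (m + 2) *
        if ∀ i, (p : ℤ) ∣ ω i then Fpr (fun i => (p : ℤ) * a i) b W c ω else 0) 
          (bdd_smul _ ⟨1, fun ω => abs_ite_le (abs_Fpr_le _ _ _ _ _)⟩)
      rw [h3] at h4
      rw [← h4]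
      congr 1
      funext ω
      congr 1
      have hiff : (∀ i, (p : ℤ) ∣
          (ω + vec ((p : ℤ) * R₀) ((p : ℤ) * R₀) 0 : Fin (m + 2) → ℤ) i) ↔
          ∀ i, (p : ℤ) ∣ ω i := by
        have h5 : ∀ i, (p : ℤ) ∣ (vec ((p : ℤ) * R₀) ((p : ℤ) * R₀) 0 : Fin (m + 2) → ℤ) i :=
          vec_dvd ⟨_, rfl⟩ ⟨_, rfl⟩ (fun l => by simp)
        constructor
        · intro h6 i
          exact (dvd_add_left (h5 i)).1 (h6 i)
        · intro h6 i
          exact (dvd_add_left (h5 i)).2 (h6 i)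
      by_cases h6 : ∀ i, (p : ℤ) ∣ ω i
      · rw [if_pos h6, if_pos (hiff.2 h6)]
      · rw [if_neg h6, if_neg (fun h7 => h6 (hiff.1 h7))]
    -- the second mean
    have hE2 : ∀ p ∈ P, M.E (g p) =
        M.E (fun ω => Hpr a b W c j ω * pr2 (a j) (b j) (κ p * C) ω) := by
      intro p hp
      have h3 := M.shift (vec ((p : ℤ) * R₀) ((p : ℤ) * R₀) 0)
        (Fpr (fun i => (p : ℤ) * a i) b W c) (bdd_Fpr _ _ _ _)
      have h4 := M.shift (vec (κ p * w) (κ p * w) (fun l => κ p * v l))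
        (Fpr (fun i => (p : ℤ) * a i) b W c) (bdd_Fpr _ _ _ _)
      have h5 : M.E (g p) = M.E (Fpr (fun i => (p : ℤ) * a i) b W c) := h3
      rw [h5, ← h4]
      have hsum : ∀ i, κ p * w + ∑ l, b i l * (κ p * v l) = κ p * (w + ∑ l, v l * b i l) := by
        intro i
        rw [mul_add, Finset.mul_sum]
        congr 1
        apply Finset.sum_congr rfl
        intro l _
        ring
      congr 1
      funext ω
      apply Fpr_shift a (fun i => (p : ℤ) * a i) b W c j
      · exact (hκW p hp).mul_right _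
      · intro l
        exact (hκW p hp).mul_right _
      · intro i hi
        rw [hsum]
        have h6 := h0 i hi
        have h7 : w + ∑ l, v l * b i l = - (D * a i) := by linarith
        rw [h7]
        have h8 := hκD p hp
        linear_combination (-a i) * h8
      · rw [hsum]
        have h7 : w + ∑ l, v l * b j l = C - D * a j := by rw [hC]; ring
        rw [h7]
        have h8 := hκD p hp
        linear_combination (-a j) * h8
    -- the second moment
    set Sg : (Fin (m + 2) → ℤ) → ℝ := fun ω => ∑ p ∈ P, pr2 (a j) (b j) (κ p * C) ω with hSg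
    have hSgb : Bdd Sg := bdd_sum _ _ fun p _ => bdd_pr2 _ _ _
    have hE3 : ∑ p ∈ P, M.E (g p) = M.E (fun ω => Hpr a b W c j ω * Sg ω) := by
      have e : (fun ω => Hpr a b W c j ω * Sg ω) = fun ω => ∑ p ∈ P,
          Hpr a b W c j ω * pr2 (a j) (b j) (κ p * C) ω := by
        funext ω
        rw [hSg, Finset.mul_sum]
      rw [e, M.E_sum _ _ (fun κ _ => bdd_mul ⟨1, abs_Hpr_le a b W c j⟩ (bdd_pr2 _ _ _))]
      exact Finset.sum_congr rfl hE2
    have hsq : M.E (fun ω => Sg ω * Sg ω) ≤ (ε / 2) ^ 2 * (P.card : ℝ) ^ 2 := by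
      have h3 := E_sum_sq M (a j) (b j) P (fun p => κ p * C)
      have h4 : M.E (fun ω => Sg ω * Sg ω) = ∑ p ∈ P, ∑ q ∈ P,
          Gd M (a j) (b j) C D ((p : ℤ) - q) := by
        rw [hSg, h3]
        apply Finset.sum_congr rfl
        intro p hp
        apply Finset.sum_congr rfl
        intro q hq
        have h5 : (p : ℤ) - q = D * (κ p - κ q) := by
          rw [mul_sub, hκD p hp, hκD q hq]
          ring
        unfold Gd
        rw [if_pos ⟨_, h5⟩, h5, Int.mul_ediv_cancel_left _ hD', ← Gam_neg]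
        congr 1
        ring
      rw [h4]
      apply hPE M' hM1 hdense
      · exact Gd_nonneg M _ _ _ _ hT.1
      · exact Gd_le_one M _ _ _ _
      · exact Gd_neg M _ _ _ _
      · refine (Gd_sum M (a j) (b j) C D hD hT.1 (2 ^ M')).trans ?_
        have h5 : H₀ ≤ 2 ^ M' / D + 1 := by
          have h6 : D * H₀ ≤ 2 ^ M' := hM2.trans (Nat.lt_two_pow_self).le
          have h7 : H₀ ≤ 2 ^ M' / D := (Nat.le_div_iff_mul_le hD).2 (by rwa [mul_comm])
          omega
        refine (hH₀ _ h5).trans ?_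
        have h6 : ((2 ^ M' / D + 1 : ℕ) : ℝ) ≤ 2 * 2 ^ M' := by
          have h7 : 2 ^ M' / D ≤ 2 ^ M' := Nat.div_le_self _ _
          have h8 : 1 ≤ 2 ^ M' := Nat.one_le_two_pow
          have h9 : 2 ^ M' / D + 1 ≤ 2 * 2 ^ M' := by omega
          exact_mod_cast h9
        calc δ / 2 * ((2 ^ M' / D + 1 : ℕ) : ℝ) ≤ δ / 2 * (2 * 2 ^ M') := by gcongr
          _ = δ * 2 ^ M' := by ring
    have hcs := M.sq_E_mul_le (f := Hpr a b W c j) (g := Sg) (abs_Hpr_le a b W c j) hSgb
    have habs : |∑ p ∈ P, M.E (g p)| ≤ ε / 2 * P.card := by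
      rw [hE3]
      apply abs_le_of_sq_le_sq _ (by positivity)
      refine hcs.trans (hsq.trans (le_of_eq ?_))
      ring
    -- conclusion
    have hfin : (P.card : ℝ) * |M.E (Fpr a b W c)| ≤ P.card * ε := by
      have h3 : (P.card : ℝ) * M.E (Fpr a b W c) =
          ∑ p ∈ P, (M.E (fun ω => (p : ℝ) ^ (m + 2) *
            if ∀ i, (p : ℤ) ∣ ω i then g p ω else 0) - M.E (g p)) + ∑ p ∈ P, M.E (g p) := by
        rw [Finset.sum_sub_distrib, sub_add_cancel, Finset.sum_congr rfl hE1, Finset.sum_const,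
          nsmul_eq_mul]
      calc (P.card : ℝ) * |M.E (Fpr a b W c)| = |(P.card : ℝ) * M.E (Fpr a b W c)| := by
            rw [abs_mul, abs_of_pos hPpos]
        _ ≤ |∑ p ∈ P, (M.E (fun ω => (p : ℝ) ^ (m + 2) *
            if ∀ i, (p : ℤ) ∣ ω i then g p ω else 0) - M.E (g p))| + |∑ p ∈ P, M.E (g p)| := by
            rw [h3]
            exact abs_add_le _ _
        _ ≤ ∑ p ∈ P, |M.E (fun ω => (p : ℝ) ^ (m + 2) *
            if ∀ i, (p : ℤ) ∣ ω i then g p ω else 0) - M.E (g p)| + |∑ p ∈ P, M.E (g p)| := by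
            gcongr
            exact Finset.abs_sum_le_sum_abs _ _
        _ ≤ ε / 2 * P.card + ε / 2 * P.card := add_le_add hDEC1 habs
        _ = P.card * ε := by ring
    exact le_of_mul_le_mul_left hfin hPpos
  have h3 : |M.E (Fpr a b W c)| ≤ 0 := by
    apply le_of_forall_pos_le_add
    intro ε hε
    rw [zero_add]
    exact main ε hε
  exact abs_nonpos_iff.1 h3

end

/-- [CORE] follows from [DEC] and [PE]. -/
theorem core_main (h1 : StatementDEC) (h2 : StatementPE) : StatementCORE := by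
  intro m k a b j W c M hW hI hM hT
  obtain ⟨D, w, v, h3, h4⟩ := hI
  rcases Nat.eq_zero_or_pos D with hD | hD
  · subst hD
    apply core_zero a b W c j hW w v _ _ hT
    · intro i hi
      have := h3 i hi
      simpa using this
    · simpa using h4
  · exact core_pos h1 h2 hM a b W c j hW D hD w v h3 h4 hT

end Pool.Agent.H91.LF
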