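import Mathlib
import Pool.Agent.H18.MR.Entropy
import Pool.Agent.H24.MR.Interface
import Pool.Agent.H24.T2.Interface

/-!
Definitions for the project LF (linear families of shifts) on `MP_c59857_nt`.
-/

set_option autoImplicit false

open Finset Filter Topology

namespace Pool.Agent.H91.LF

open Pool.Agent.H24.MR (lam)
open Pool.Agent.H24.T2 (Pset)

/-- The Liouville function on the integers, with value `0` at `0` and `lz (-n) = lz n`. -/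
noncomputable def lz (n : ℤ) : ℝ := if n = 0 then 0 else lam n.natAbs

/-- Bounded functions. -/
def Bdd {Ω : Type*} (f : Ω → ℝ) : Prop := ∃ C : ℝ, ∀ ω, |f ω| ≤ C

/-- A translation invariant mean on the bounded functions on `ℤ ^ d`. -/
structure Mean (d : ℕ) where
  /-- the mean value -/
  E : ((Fin d → ℤ) → ℝ) → ℝ
  add : ∀ f g, Bdd f → Bdd g → E (fun ω => f ω + g ω) = E f + E g
  smul : ∀ (c : ℝ) (f), Bdd f → E (fun ω => c * f ω) = c * E f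
  nonneg : ∀ f, Bdd f → (∀ ω, 0 ≤ f ω) → 0 ≤ E f
  one : E (fun _ => 1) = 1
  shift : ∀ (v : Fin d → ℤ) (f), Bdd f → E (fun ω => f (ω + v)) = E f

open Classical in
/-- Dilation invariance of a mean. -/
def Dil {d : ℕ} (M : Mean d) : Prop :=
  ∀ p : ℕ, p.Prime → ∀ f : (Fin d → ℤ) → ℝ, Bdd f →
    M.E (fun ω => (p : ℝ) ^ d * if ∀ i, (p : ℤ) ∣ ω i then f (fun i => ω i / p) else 0) = M.E f

/-- The value at `(n, u)` of the form `n + a + b . u`. -/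
def frm {m : ℕ} (a : ℤ) (b : Fin m → ℤ) (n : ℤ) (u : Fin m → ℤ) : ℤ := n + a + ∑ l, b l * u l

/-- The parameters `u` of a point `(n, n', u)` of `ℤ ^ (m + 2)`. -/
def par {m : ℕ} (ω : Fin (m + 2) → ℤ) : Fin m → ℤ := fun l => ω l.succ.succ

/-- The four point function of a mean along a form. -/
noncomputable def Gam {m : ℕ} (M : Mean (m + 2)) (a : ℤ) (b : Fin m → ℤ) (s : ℤ) : ℝ :=
  M.E (fun ω => lz (frm a b (ω 0) (par ω)) * lz (frm a b (ω 0) (par ω) + s) *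
    (lz (frm a b (ω 1) (par ω)) * lz (frm a b (ω 1) (par ω) + s)))

/-- The averaged two point property of a mean along a form. -/
def Two {m : ℕ} (M : Mean (m + 2)) (a : ℤ) (b : Fin m → ℤ) : Prop :=
  (∀ s, 0 ≤ Gam M a b s) ∧ ∀ (c : ℤ) (η : ℝ), c ≠ 0 → 0 < η → ∃ H₀ : ℕ, ∀ H, H₀ ≤ H →
    ∑ s ∈ Finset.range H, Gam M a b (c * s) ≤ η * H

open Classical in
/-- The product of the values of `lz` at all the forms, for both copies, restricted to a residue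
class modulo `W`. -/
noncomputable def Fpr {m k : ℕ} (a : Fin k → ℤ) (b : Fin k → Fin m → ℤ) (W : ℕ)
    (c : Fin (m + 2) → ℤ) (ω : Fin (m + 2) → ℤ) : ℝ :=
  if ∀ i, ω i ≡ c i [ZMOD W] then
    ∏ i, (lz (frm (a i) (b i) (ω 0) (par ω)) * lz (frm (a i) (b i) (ω 1) (par ω))) else 0

/-- The form `j` is affinely independent of the others, with integer coefficients:
`D * a i + w + v . b i` vanishes for all `i ≠ j` but not for `i = j`. -/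
def Ind {m k : ℕ} (a : Fin k → ℤ) (b : Fin k → Fin m → ℤ) (j : Fin k) : Prop :=
  ∃ (D : ℕ) (w : ℤ) (v : Fin m → ℤ), (∀ i, i ≠ j → (D : ℤ) * a i + w + ∑ l, v l * b i l = 0) ∧
    (D : ℤ) * a j + w + ∑ l, v l * b j l ≠ 0

/-- The weight `∏ 1 / t l`. -/
noncomputable def wt {m : ℕ} (t : Fin m → ℕ) : ℝ := ∏ l, (1 : ℝ) / t l

/-- The box `[1, T] ^ m`. -/
def box (m T : ℕ) : Finset (Fin m → ℕ) := Fintype.piFinset (fun _ => Finset.Icc 1 T)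

/-! ## Statements of the modules -/

open Classical in
/-- [DEC] Decoupling by entropy decrement in `d` variables. -/
def StatementDEC : Prop :=
  ∃ c₀ : ℝ, 0 < c₀ ∧ ∀ (d : ℕ) (M : Mean d) (A : Type) (_ : Fintype A)
    (x : (Fin d → ℤ) → A) (e : Fin d → ℤ) (Q W R : ℕ) (θ : ℝ) (m₀ : ℕ),
    0 < Q → 0 < W → W ∣ Q → 0 < R → 0 < θ →
    ∃ m, m₀ ≤ m ∧ c₀ * 2 ^ m / (Nat.totient Q * m) ≤ ((Pset Q m).card : ℝ) ∧
      ∀ g : ℕ → (Fin d → ℤ) → ℝ,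
        (∀ p ∈ Pset Q m, ∀ ω, |g p ω| ≤ 1) →
        (∀ p ∈ Pset Q m, ∀ ω ω' : Fin d → ℤ,
          (∀ j : ℕ, j < R * 2 ^ m → x (ω + (j : ℤ) • e) = x (ω' + (j : ℤ) • e)) →
          ∀ k : Fin d → ℤ, (∀ i, 0 ≤ k i ∧ k i < p) →
            g p (ω + (W : ℤ) • k) = g p (ω' + (W : ℤ) • k)) →
        ∑ p ∈ Pset Q m,
          |M.E (fun ω => (p : ℝ) ^ d * if ∀ i, (p : ℤ) ∣ ω i then g p ω else 0) - M.E (g p)| ≤
          θ * (Pset Q m).card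

/-- [A2] The averaged two point Chowla conjecture at every scale. -/
def StatementA2 : Prop :=
  ∀ (c : ℤ) (η : ℝ), c ≠ 0 → 0 < η → ∃ H₀ : ℕ, ∀ H, H₀ ≤ H → ∃ N₀ : ℕ, ∀ N, N₀ ≤ N →
    ∑ s ∈ Finset.range H, ((∑ n ∈ Finset.Icc 1 N, lz n * lz (n + c * s)) / (N : ℝ)) ^ 2 ≤ η * H

/-- [KAT] Irrational frequencies (Katai, Daboussi) on short intervals. -/
def StatementKAT : Prop :=
  ∀ (β : ℝ) (η : ℝ), Irrational β → 0 < η → ∃ H₀ : ℕ, ∀ H, H₀ ≤ H → ∃ N₀ : ℕ, ∀ N, N₀ ≤ N →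
    ∑ n ∈ Finset.range N,
      ‖∑ y ∈ Finset.range H, (lam (n + y) : ℂ) * Complex.exp (2 * Real.pi * Complex.I * (β * y))‖ ^ 2
      ≤ η * H ^ 2 * N

/-- [RAT] Rational frequencies on short intervals. -/
def StatementRAT : Prop :=
  ∀ (β : ℚ) (η : ℝ), 0 < η → ∃ H₀ : ℕ, ∀ H, H₀ ≤ H → ∃ N₀ : ℕ, ∀ N, N₀ ≤ N →
    ∑ n ∈ Finset.range N,
      ‖∑ y ∈ Finset.range H,
        (lam (n + y) : ℂ) * Complex.exp (2 * Real.pi * Complex.I * ((β : ℝ) * y))‖ ^ 2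
      ≤ η * H ^ 2 * N

/-- [SUP] Uniformity in the frequency. -/
def StatementSUP : Prop :=
  ∀ η : ℝ, 0 < η → ∃ H₀ : ℕ, ∀ H, H₀ ≤ H → ∃ N₀ : ℕ, ∀ N, N₀ ≤ N → ∀ β : ℝ,
    ∑ n ∈ Finset.range N,
      ‖∑ y ∈ Finset.range H, (lam (n + y) : ℂ) * Complex.exp (2 * Real.pi * Complex.I * (β * y))‖ ^ 2
      ≤ η * H ^ 2 * N

/-- [PE] Averages of a function with small mean over differences of primes. -/
def StatementPE : Prop :=
  ∀ (Q : ℕ) (c₀ η : ℝ), 0 < Q → Even Q → 0 < c₀ → 0 < η → ∃ δ : ℝ, 0 < δ ∧ ∃ m₁ : ℕ,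
    ∀ m, m₁ ≤ m → c₀ * 2 ^ m / (Nat.totient Q * m) ≤ ((Pset Q m).card : ℝ) →
    ∀ Γ : ℤ → ℝ, (∀ s, 0 ≤ Γ s) → (∀ s, Γ s ≤ 1) → (∀ s, Γ (-s) = Γ s) →
      ∑ s ∈ Finset.range (2 ^ m), Γ s ≤ δ * 2 ^ m →
      ∑ p ∈ Pset Q m, ∑ q ∈ Pset Q m, Γ ((p : ℤ) - q) ≤ η * ((Pset Q m).card : ℝ) ^ 2

/-- [CORE] The mean of the product vanishes. -/
def StatementCORE : Prop :=
  ∀ (m k : ℕ) (a : Fin k → ℤ) (b : Fin k → Fin m → ℤ) (j : Fin k) (W : ℕ)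
    (c : Fin (m + 2) → ℤ) (M : Mean (m + 2)),
    0 < W → Ind a b j → Dil M → Two M (a j) (b j) → M.E (Fpr a b W c) = 0

open Classical in
/-- [LAM] The finitary theorem for the Liouville function in residue classes. -/
def StatementLAM : Prop :=
  ∀ (m k : ℕ) (a : Fin k → ℤ) (b : Fin k → Fin m → ℤ) (j : Fin k) (W : ℕ) (n₀ : ℤ)
    (τ : Fin m → ℤ), 0 < W → Ind a b j → ∀ ρ : ℝ, 0 < ρ → ∃ T₀ : ℕ, ∀ T, T₀ ≤ T →
    ∃ K : ℕ, ∀ x y : ℕ, 0 < x → K * x ≤ y →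
      ∑ t ∈ (box m T).filter (fun t => ∀ l, (t l : ℤ) ≡ τ l [ZMOD W]),
        wt t * ∑ N ∈ Finset.Icc x y, (1 / (N : ℝ)) *
          |(∑ n ∈ (Finset.Icc 1 N).filter (fun n => (n : ℤ) ≡ n₀ [ZMOD W]),
            ∏ i, lz (frm (a i) (b i) n (fun l => (t l : ℤ)))) / N| ≤
      ρ * Real.log T ^ m * Real.log (y / x)

/-- [MUF] The final theorem for the Möbius function. -/
def StatementMUF : Prop :=
  ∀ (m r : ℕ) (a : Fin r → ℤ) (b : Fin r → Fin m → ℤ) (ε : Fin r → ℕ) (q n₀ : ℕ) (j : Fin r),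
    (∀ i, 1 ≤ ε i) → Odd (ε j) → 0 < q →
    (Fin.cons 1 (Fin.cons (a j : ℚ) (fun l => (b j l : ℚ))) : Fin (m + 2) → ℚ) ∉
      Submodule.span ℚ {z | ∃ i, i ≠ j ∧ Odd (ε i) ∧
        z = (Fin.cons 1 (Fin.cons (a i : ℚ) (fun l => (b i l : ℚ))) : Fin (m + 2) → ℚ)} →
    ∀ ρ : ℝ, 0 < ρ → ∃ T₀ : ℕ, ∀ T, T₀ ≤ T → ∃ K : ℕ, ∀ x y : ℕ, 0 < x → K * x ≤ y →
      ∑ t ∈ Fintype.piFinset (fun _ : Fin m => Finset.Icc 1 T),
        (∏ l, (1 : ℝ) / t l) * ∑ N ∈ Finset.Icc x y, (1 / (N : ℝ)) *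
          |(∑ n ∈ (Finset.Icc 1 N).filter (fun n => n ≡ n₀ [MOD q]),
            ∏ i, ((ArithmeticFunction.moebius
              (((n : ℤ) + (a i + ∑ l, b i l * t l)).toNat) : ℤ) : ℝ) ^ ε i) / N| ≤
      ρ * Real.log T ^ m * Real.log (y / x)

end Pool.Agent.H91.LF
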