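import Pool.Agent.H91.LF.Defs2

/-!
Statements for the upgrade LFP (shifts `a i + b i . t + c i * p`, `p` prime) of the project LF on
`MP_c59857_nt`.
-/

set_option autoImplicit false

open Finset Filter Topology

namespace Pool.Agent.H91.LF

open Pool.Agent.H24.MR (lam)
open Pool.Agent.H24.T2 (Pset)

/-- The primes up to `P`. -/
def primesLE (P : ℕ) : Finset ℕ := (Finset.Icc 1 P).filter Nat.Prime

/-- [CP] The mean level theorem for almost all primes; `C` does not depend on the mean and on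
`P`. -/
def StatementCP : Prop :=
  ∀ (m k : ℕ) (a : Fin k → ℤ) (b : Fin k → Fin m → ℤ) (c : Fin k → ℤ) (j : Fin k) (W : ℕ)
    (z : Fin (m + 2) → ℤ), 0 < W → Ind a b j → ∃ C : ℝ, ∀ (P : ℕ) (M : Mean (m + 2)), Dil M →
    (∀ (a' : ℤ) (b' : Fin m → ℤ), Two M a' b') →
      ∑ p ∈ primesLE P, (1 / (p : ℝ)) * (M.E (Fpr (fun i => a i + c i * (p : ℤ)) b W z)) ^ 2 ≤ C

open Classical in
/-- [LAMP] The finitary theorem for the Liouville function in residue classes: the sum of the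
reciprocals of the exceptional primes is bounded. -/
def StatementLAMP : Prop :=
  ∀ (m k : ℕ) (a : Fin k → ℤ) (b : Fin k → Fin m → ℤ) (c : Fin k → ℤ) (j : Fin k) (W : ℕ)
    (n₀ : ℤ) (τ : Fin m → ℤ), 0 < W → Ind a b j → ∀ ρ : ℝ, 0 < ρ → ∃ C : ℝ, ∀ P : ℕ,
    ∃ T₀ : ℕ, ∀ T, T₀ ≤ T → ∃ K : ℕ, ∀ x y : ℕ, 0 < x → K * x ≤ y →
      ∑ p ∈ (primesLE P).filter (fun p => ρ * Real.log T ^ m * Real.log (y / x) <
        ∑ t ∈ (box m T).filter (fun t => ∀ l, (t l : ℤ) ≡ τ l [ZMOD W]),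
        wt t * ∑ N ∈ Finset.Icc x y, (1 / (N : ℝ)) *
          |(∑ n ∈ (Finset.Icc 1 N).filter (fun n => (n : ℤ) ≡ n₀ [ZMOD W]),
            ∏ i, lz (frm (a i + c i * (p : ℤ)) (b i) n (fun l => (t l : ℤ)))) / N|),
        (1 / (p : ℝ)) ≤ C

open Classical in
/-- [MUAU] Approximation of the Möbius sum by a sum of the Liouville function with a periodic
weight, on average over the scales; the level `w` does not depend on the shifts. -/
def StatementMUAU : Prop :=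
  ∀ (r : ℕ) (η : ℝ), 0 < η → ∃ w : ℕ, ∀ (m : ℕ) (a : Fin r → ℤ) (b : Fin r → Fin m → ℤ)
    (ε : Fin r → ℕ) (q n₀ : ℕ), (∀ i, 1 ≤ ε i) → 0 < q → ∀ T : ℕ, ∃ K : ℕ, ∀ x y : ℕ, 0 < x →
    K * x ≤ y → ∀ t ∈ box m T,
      ∑ N ∈ Finset.Icc x y, (1 / (N : ℝ)) *
        (|(∑ n ∈ (Finset.Icc 1 N).filter (fun n => n ≡ n₀ [MOD q]),
            ((∏ i, ((ArithmeticFunction.moebius
              (((n : ℤ) + (a i + ∑ l, b i l * t l)).toNat) : ℤ) : ℝ) ^ ε i) -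
            (∏ i ∈ Finset.univ.filter (fun i => Odd (ε i)),
                lz (frm (a i) (b i) n (fun l => (t l : ℤ)))) *
              ∏ i, sqw w (frm (a i) (b i) n (fun l => (t l : ℤ))))) / N|) ≤
      η * Real.log (y / x)

open Classical in
/-- [MUFP] The final theorem for the Möbius function: the sum of the reciprocals of the
exceptional primes is bounded. -/
def StatementMUFP : Prop :=
  ∀ (m r : ℕ) (a : Fin r → ℤ) (b : Fin r → Fin m → ℤ) (c : Fin r → ℤ) (ε : Fin r → ℕ)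
    (q n₀ : ℕ) (j : Fin r),
    (∀ i, 1 ≤ ε i) → Odd (ε j) → 0 < q →
    (Fin.cons 1 (Fin.cons (a j : ℚ) (fun l => (b j l : ℚ))) : Fin (m + 2) → ℚ) ∉
      Submodule.span ℚ {z | ∃ i, i ≠ j ∧ Odd (ε i) ∧
        z = (Fin.cons 1 (Fin.cons (a i : ℚ) (fun l => (b i l : ℚ))) : Fin (m + 2) → ℚ)} →
    ∀ ρ : ℝ, 0 < ρ → ∃ C : ℝ, ∀ P : ℕ, ∃ T₀ : ℕ, ∀ T, T₀ ≤ T → ∃ K : ℕ,
    ∀ x y : ℕ, 0 < x → K * x ≤ y →
      ∑ p ∈ ((Finset.Icc 1 P).filter Nat.Prime).filter (fun p =>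
        ρ * Real.log T ^ m * Real.log (y / x) <
        ∑ t ∈ Fintype.piFinset (fun _ : Fin m => Finset.Icc 1 T),
        (∏ l, (1 : ℝ) / t l) * ∑ N ∈ Finset.Icc x y, (1 / (N : ℝ)) *
          |(∑ n ∈ (Finset.Icc 1 N).filter (fun n => n ≡ n₀ [MOD q]),
            ∏ i, ((ArithmeticFunction.moebius
              (((n : ℤ) + (a i + ∑ l, b i l * t l + c i * p)).toNat) : ℤ) : ℝ) ^ ε i) / N|),
        (1 / (p : ℝ)) ≤ C

end Pool.Agent.H91.LF
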