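import Pool.Agent.H91.LF.Basic

/-!
# Module [KAT]: irrational frequencies on short intervals (Katai, Daboussi)
-/

set_option autoImplicit false

open Finset Filter Topology

namespace Pool.Agent.H91.LF

open Pool.Agent.H24.MR (lam)

/-! ### Counting and Turan-Kubilius -/

theorem range_dvd_card (N d : ℕ) (hd : 0 < d) (hN : 0 < N) :
    ((Finset.range N).filter (fun k => d ∣ k)).card = 1 + (N - 1) / d := by
  have h1 : (Finset.range N).filter (fun k => d ∣ k) =
      insert 0 ((Finset.Ioc 0 (N - 1)).filter (fun k => d ∣ k)) := by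
    ext k
    simp only [Finset.mem_filter, Finset.mem_range, Finset.mem_insert, Finset.mem_Ioc]
    constructor
    · rintro ⟨h, h'⟩
      rcases Nat.eq_zero_or_pos k with hk | hk
      · left; exact hk
      · right; exact ⟨⟨hk, by omega⟩, h'⟩
    · rintro (h | ⟨⟨h, h'⟩, h''⟩)
      · subst h; exact ⟨hN, dvd_zero d⟩
      · exact ⟨by omega, h''⟩
  rw [h1, Finset.card_insert_of_notMem (by simp), Nat.Ioc_filter_dvd_card_eq_div, add_comm]

theorem range_dvd_card_le (N d : ℕ) (hd : 0 < d) (hN : 0 < N) :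
    (((Finset.range N).filter (fun k => d ∣ k)).card : ℝ) ≤ N / d + 1 := by
  rw [range_dvd_card N d hd hN]
  push_cast
  have h1 : (((N - 1) / d : ℕ) : ℝ) ≤ ((N - 1 : ℕ) : ℝ) / d := Nat.cast_div_le
  have h2 : ((N - 1 : ℕ) : ℝ) / d ≤ (N : ℝ) / d := by
    gcongr
    omega
  linarith

theorem range_dvd_card_ge (N d : ℕ) (hd : 0 < d) (hN : 0 < N) :
    (N : ℝ) / d ≤ (((Finset.range N).filter (fun k => d ∣ k)).card : ℝ) := by
  rw [range_dvd_card N d hd hN]
  have hd' : (0 : ℝ) < d := by exact_mod_cast hd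
  rw [div_le_iff₀ hd']
  have h1 : N ≤ (1 + (N - 1) / d) * d := by
    have h2 := Nat.div_add_mod (N - 1) d
    have h3 := Nat.mod_lt (N - 1) hd
    nlinarith [Nat.sub_add_cancel hN]
  exact_mod_cast h1

/-- the number of prime divisors from the finite set `P` -/
noncomputable def wP (P : Finset ℕ) (k : ℕ) : ℝ := ∑ p ∈ P, if p ∣ k then (1 : ℝ) else 0

/-- Turan-Kubilius for a finite set of primes. -/
theorem tk_finite (P : Finset ℕ) (hP : ∀ p ∈ P, p.Prime) (N : ℕ) (hN : 0 < N)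
    (hN2 : (P.card : ℝ) ^ 2 ≤ (∑ p ∈ P, (1 : ℝ) / p) * N) :
    ∑ k ∈ Finset.range N, (wP P k - ∑ p ∈ P, (1 : ℝ) / p) ^ 2 ≤
      2 * (∑ p ∈ P, (1 : ℝ) / p) * N := by
  classical
  set S := ∑ p ∈ P, (1 : ℝ) / p with hS
  have hS0 : 0 ≤ S := Finset.sum_nonneg fun p _ => by positivity
  have hN' : (0 : ℝ) < N := by exact_mod_cast hN
  have e1 : ∑ k ∈ Finset.range N, wP P k =
      ∑ p ∈ P, (((Finset.range N).filter (fun k => p ∣ k)).card : ℝ) := by
    unfold wP
    rw [Finset.sum_comm]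
    apply Finset.sum_congr rfl
    intro p _
    rw [Finset.sum_ite, Finset.sum_const_zero, add_zero, Finset.sum_const, nsmul_eq_mul, mul_one]
  have e2 : ∑ k ∈ Finset.range N, wP P k ^ 2 =
      ∑ p ∈ P, ∑ q ∈ P,
        (((Finset.range N).filter (fun k => p ∣ k ∧ q ∣ k)).card : ℝ) := by
    have : ∀ k, wP P k ^ 2 = ∑ p ∈ P, ∑ q ∈ P, if p ∣ k ∧ q ∣ k then (1 : ℝ) else 0 := by
      intro k
      unfold wP
      rw [sq, Finset.sum_mul_sum]
      apply Finset.sum_congr rfl
      intro p _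
      apply Finset.sum_congr rfl
      intro q _
      by_cases h1 : p ∣ k <;> by_cases h2 : q ∣ k <;> simp [h1, h2]
    simp_rw [this]
    rw [Finset.sum_comm]
    apply Finset.sum_congr rfl
    intro p _
    rw [Finset.sum_comm]
    apply Finset.sum_congr rfl
    intro q _
    rw [Finset.sum_ite, Finset.sum_const_zero, add_zero, Finset.sum_const, nsmul_eq_mul, mul_one]
  have h1 : S * N ≤ ∑ k ∈ Finset.range N, wP P k := by
    rw [e1, hS, Finset.sum_mul]
    apply Finset.sum_le_sum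
    intro p hp
    have := range_dvd_card_ge N p (hP p hp).pos hN
    calc (1 : ℝ) / p * N = N / p := by ring
      _ ≤ _ := this
  have h2 : ∑ k ∈ Finset.range N, wP P k ^ 2 ≤ S ^ 2 * N + S * N + (P.card : ℝ) ^ 2 := by
    rw [e2]
    have key : ∀ p ∈ P, ∀ q ∈ P,
        (((Finset.range N).filter (fun k => p ∣ k ∧ q ∣ k)).card : ℝ) ≤
        (1 : ℝ) / p * (1 / q) * N + (if p = q then (1 : ℝ) / p * N else 0) + 1 := by
      intro p hp q hq
      by_cases hpq : p = q
      · subst hpq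
        rw [if_pos rfl]
        have h3 := range_dvd_card_le N p (hP p hp).pos hN
        have h4 : (Finset.range N).filter (fun k => p ∣ k ∧ p ∣ k) =
            (Finset.range N).filter (fun k => p ∣ k) := by
          simp
        rw [h4]
        have h5 : (0 : ℝ) ≤ (1 : ℝ) / p * (1 / p) * N := by positivity
        have h6 : (N : ℝ) / p = 1 / p * N := by ring
        linarith
      · rw [if_neg hpq]
        have hcop : Nat.Coprime p q := (Nat.coprime_primes (hP p hp) (hP q hq)).2 hpq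
        have h4 : (Finset.range N).filter (fun k => p ∣ k ∧ q ∣ k) =
            (Finset.range N).filter (fun k => p * q ∣ k) := by
          ext k
          simp only [Finset.mem_filter, Finset.mem_range, and_congr_right_iff]
          intro _
          exact ⟨fun h => hcop.mul_dvd_of_dvd_of_dvd h.1 h.2,
            fun h => ⟨dvd_of_mul_right_dvd h, dvd_of_mul_left_dvd h⟩⟩
        rw [h4]
        have h3 := range_dvd_card_le N (p * q) (Nat.mul_pos (hP p hp).pos (hP q hq).pos) hN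
        have h6 : (N : ℝ) / ((p * q : ℕ) : ℝ) = 1 / p * (1 / q) * N := by
          push_cast
          rw [div_mul_div_comm, one_mul, div_mul_eq_mul_div, one_mul]
        linarith
    calc _ ≤ ∑ p ∈ P, ∑ q ∈ P,
          ((1 : ℝ) / p * (1 / q) * N + (if p = q then (1 : ℝ) / p * N else 0) + 1) :=
          Finset.sum_le_sum fun p hp => Finset.sum_le_sum fun q hq => key p hp q hq
      _ = _ := by
          have h3 : ∀ p ∈ P, ∑ q ∈ P,
              ((1 : ℝ) / p * (1 / q) * N + (if p = q then (1 : ℝ) / p * N else 0) + 1) =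
              (1 : ℝ) / p * (S * N) + (1 : ℝ) / p * N + P.card := by
            intro p hp
            rw [Finset.sum_add_distrib, Finset.sum_add_distrib, Finset.sum_ite_eq, if_pos hp,
              Finset.sum_const, nsmul_eq_mul, mul_one, hS, Finset.sum_mul, Finset.mul_sum]
            congr 2
            apply Finset.sum_congr rfl
            intro q _
            ring
          rw [Finset.sum_congr rfl h3, Finset.sum_add_distrib, Finset.sum_add_distrib,
            ← Finset.sum_mul, ← Finset.sum_mul, ← hS, Finset.sum_const, nsmul_eq_mul]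
          ring
  have h3 : ∑ k ∈ Finset.range N, (wP P k - S) ^ 2 =
      ∑ k ∈ Finset.range N, wP P k ^ 2 - 2 * S * ∑ k ∈ Finset.range N, wP P k + S ^ 2 * N := by
    have : ∀ k, (wP P k - S) ^ 2 = wP P k ^ 2 - 2 * S * wP P k + S ^ 2 := fun k => by ring
    simp_rw [this]
    rw [Finset.sum_add_distrib, Finset.sum_sub_distrib, ← Finset.mul_sum, Finset.sum_const,
      Finset.card_range, nsmul_eq_mul]
    ring
  rw [h3]
  nlinarith [mul_le_mul_of_nonneg_left h1 hS0]

/-! ### Geometric sums and Abel summation -/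

theorem geom_bound (z : ℂ) (hz : ‖z‖ = 1) (hz1 : z ≠ 1) :
    ∃ K : ℝ, 0 ≤ K ∧ ∀ M : ℕ, ‖∑ m ∈ Finset.range M, z ^ m‖ ≤ K := by
  refine ⟨2 / ‖z - 1‖, by positivity, fun M => ?_⟩
  rw [geom_sum_eq hz1, norm_div]
  gcongr
  calc ‖z ^ M - 1‖ ≤ ‖z ^ M‖ + ‖(1 : ℂ)‖ := norm_sub_le _ _
    _ = 2 := by rw [norm_pow, hz]; norm_num

theorem abel_bound (D E : ℕ → ℂ) (K A B : ℝ) (hK : 0 ≤ K)
    (hE : ∀ M : ℕ, ‖∑ m ∈ Finset.range M, E m‖ ≤ K) (hA : ∀ m, ‖D m‖ ≤ A)
    (hB : ∀ m, ‖D (m + 1) - D m‖ ≤ B) (M : ℕ) :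
    ‖∑ m ∈ Finset.range M, D m * E m‖ ≤ K * (A + M * B) := by
  have key : ∀ M : ℕ, ∑ m ∈ Finset.range M, D m * E m =
      D M * ∑ m ∈ Finset.range M, E m -
      ∑ m ∈ Finset.range M, (D (m + 1) - D m) * ∑ i ∈ Finset.range (m + 1), E i := by
    intro M
    induction M with
    | zero => simp
    | succ M ih =>
      rw [Finset.sum_range_succ, ih, Finset.sum_range_succ
        (fun m => (D (m + 1) - D m) * ∑ i ∈ Finset.range (m + 1), E i) M,
        Finset.sum_range_succ E M]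
      ring
  rw [key M]
  have h1 : ‖D M * ∑ m ∈ Finset.range M, E m‖ ≤ A * K := by
    rw [norm_mul]
    exact mul_le_mul (hA M) (hE M) (norm_nonneg _) ((norm_nonneg _).trans (hA M))
  have h2 : ‖∑ m ∈ Finset.range M, (D (m + 1) - D m) * ∑ i ∈ Finset.range (m + 1), E i‖ ≤
      M * (B * K) := by
    calc _ ≤ ∑ m ∈ Finset.range M, ‖(D (m + 1) - D m) * ∑ i ∈ Finset.range (m + 1), E i‖ :=
          norm_sum_le _ _
      _ ≤ ∑ m ∈ Finset.range M, B * K := by
          apply Finset.sum_le_sum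
          intro m _
          rw [norm_mul]
          exact mul_le_mul (hB m) (hE _) (norm_nonneg _) ((norm_nonneg _).trans (hB m))
      _ = _ := by rw [Finset.sum_const, Finset.card_range, nsmul_eq_mul]
  calc _ ≤ _ := norm_sub_le _ _
    _ ≤ A * K + M * (B * K) := add_le_add h1 h2
    _ = K * (A + M * B) := by ring

/-! ### The twisted function and its windows -/

section Windows

variable (β : ℝ) (N H : ℕ)

/-- the character -/
noncomputable def ch (β : ℝ) (k : ℕ) : ℂ := Complex.exp (2 * Real.pi * Complex.I * (β * k))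

theorem ch_add (k l : ℕ) : ch β (k + l) = ch β k * ch β l := by
  unfold ch
  rw [← Complex.exp_add]
  congr 1
  push_cast
  ring

theorem norm_ch (k : ℕ) : ‖ch β k‖ = 1 := by
  unfold ch
  have : (2 * Real.pi * Complex.I * (β * k) : ℂ) = ((2 * Real.pi * (β * k) : ℝ) : ℂ) * Complex.I := by
    push_cast
    ring
  rw [this, Complex.norm_exp_ofReal_mul_I]

theorem ch_mul (p m : ℕ) : ch β (p * m) = (ch β p) ^ m := by
  unfold ch
  rw [← Complex.exp_nat_mul]
  congr 1
  push_cast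
  ring

theorem norm_lam (k : ℕ) : ‖(lam k : ℂ)‖ = 1 := by
  rcases lam_or' k with h | h <;> rw [h] <;> simp

/-- the twisted function -/
noncomputable def gg (k : ℕ) : ℂ := (lam k : ℂ) * ch β k

theorem norm_gg (k : ℕ) : ‖gg β k‖ = 1 := by
  unfold gg
  rw [norm_mul, norm_lam, norm_ch, one_mul]

/-- the window sums -/
noncomputable def Sw (n : ℕ) : ℂ := ∑ y ∈ Finset.range H, gg β (n + y)

theorem norm_Sw_le (n : ℕ) : ‖Sw β H n‖ ≤ H := by
  unfold Sw
  calc _ ≤ ∑ y ∈ Finset.range H, ‖gg β (n + y)‖ := norm_sum_le _ _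
    _ = H := by simp [norm_gg]

theorem norm_Sw (n : ℕ) :
    ‖∑ y ∈ Finset.range H, (lam (n + y) : ℂ) * Complex.exp (2 * Real.pi * Complex.I * (β * y))‖ =
      ‖Sw β H n‖ := by
  have e : Sw β H n = ch β n *
      ∑ y ∈ Finset.range H, (lam (n + y) : ℂ) * Complex.exp (2 * Real.pi * Complex.I * (β * y)) := by
    unfold Sw
    rw [Finset.mul_sum]
    apply Finset.sum_congr rfl
    intro y _
    unfold gg
    rw [ch_add]
    have : ch β y = Complex.exp (2 * Real.pi * Complex.I * (β * y)) := rfl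
    rw [← this]
    ring
  rw [e, norm_mul, norm_ch, one_mul]

/-- the dual weight -/
noncomputable def Cw (k : ℕ) : ℂ :=
  ∑ n ∈ Finset.range N, if n ≤ k ∧ k < n + H then (starRingEnd ℂ) (Sw β H n) else 0

theorem Cw_zero (k : ℕ) (hk : N + H ≤ k) : Cw β N H k = 0 := by
  unfold Cw
  apply Finset.sum_eq_zero
  intro n hn
  rw [if_neg]
  rintro ⟨_, h⟩
  have := Finset.mem_range.1 hn
  omega

theorem norm_Cw_le (k : ℕ) : ‖Cw β N H k‖ ≤ (H : ℝ) ^ 2 := by
  classical
  unfold Cw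
  have h1 : ∑ n ∈ Finset.range N, (if n ≤ k ∧ k < n + H then (starRingEnd ℂ) (Sw β H n) else 0) =
      ∑ n ∈ (Finset.range N).filter (fun n => n ≤ k ∧ k < n + H), (starRingEnd ℂ) (Sw β H n) := by
    rw [Finset.sum_filter]
  rw [h1]
  have hcard : ((Finset.range N).filter (fun n => n ≤ k ∧ k < n + H)).card ≤ H := by
    calc _ ≤ (Finset.Ico (k + 1 - H) (k + 1)).card := by
          apply Finset.card_le_card
          intro n hn
          have := (Finset.mem_filter.1 hn).2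
          rw [Finset.mem_Ico]
          omega
      _ ≤ H := by
          rw [Nat.card_Ico]
          omega
  calc _ ≤ ∑ n ∈ (Finset.range N).filter (fun n => n ≤ k ∧ k < n + H),
        ‖(starRingEnd ℂ) (Sw β H n)‖ := norm_sum_le _ _
    _ ≤ ∑ n ∈ (Finset.range N).filter (fun n => n ≤ k ∧ k < n + H), (H : ℝ) := by
        apply Finset.sum_le_sum
        intro n _
        rw [RCLike.norm_conj]
        exact norm_Sw_le β H n
    _ = (((Finset.range N).filter (fun n => n ≤ k ∧ k < n + H)).card : ℝ) * H := by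
        rw [Finset.sum_const, nsmul_eq_mul]
    _ ≤ (H : ℝ) * H := by
        gcongr
    _ = (H : ℝ) ^ 2 := by ring

theorem Cw_lip_one (k : ℕ) : ‖Cw β N H (k + 1) - Cw β N H k‖ ≤ 2 * H := by
  classical
  unfold Cw
  rw [← Finset.sum_sub_distrib]
  calc _ ≤ ∑ n ∈ Finset.range N,
        ‖(if n ≤ k + 1 ∧ k + 1 < n + H then (starRingEnd ℂ) (Sw β H n) else 0) -
          (if n ≤ k ∧ k < n + H then (starRingEnd ℂ) (Sw β H n) else 0)‖ := norm_sum_le _ _
    _ ≤ ∑ n ∈ Finset.range N,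
        ((if n = k + 1 then (H : ℝ) else 0) + (if n + H = k + 1 then (H : ℝ) else 0)) := by
        apply Finset.sum_le_sum
        intro n _
        have hS : ‖(starRingEnd ℂ) (Sw β H n)‖ ≤ H := by
          rw [RCLike.norm_conj]
          exact norm_Sw_le β H n
        have hH : (0 : ℝ) ≤ H := Nat.cast_nonneg H
        by_cases h1 : n = k + 1
        · rw [if_pos h1, if_neg (show ¬ (n ≤ k ∧ k < n + H) by omega), sub_zero]
          have h3 : (0 : ℝ) ≤ (if n + H = k + 1 then (H : ℝ) else 0) := by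
            split_ifs
            · exact hH
            · exact le_rfl
          split_ifs <;> first | linarith | (rw [norm_zero]; linarith)
        · rw [if_neg h1]
          by_cases h2 : n + H = k + 1
          · rw [if_pos h2, if_neg (show ¬ (n ≤ k + 1 ∧ k + 1 < n + H) by omega), zero_sub,
              norm_neg]
            split_ifs
            · linarith
            · rw [norm_zero]; linarith
          · rw [if_neg h2]
            have hiff : (n ≤ k + 1 ∧ k + 1 < n + H) ↔ (n ≤ k ∧ k < n + H) := by omega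
            by_cases h3 : n ≤ k ∧ k < n + H
            · rw [if_pos h3, if_pos (hiff.2 h3), sub_self, norm_zero]
              linarith
            · rw [if_neg h3, if_neg (fun h => h3 (hiff.1 h)), sub_self, norm_zero]
              linarith
    _ ≤ 2 * H := by
        rw [Finset.sum_add_distrib]
        have hH : (0 : ℝ) ≤ H := Nat.cast_nonneg H
        have h1 : ∑ n ∈ Finset.range N, (if n = k + 1 then (H : ℝ) else 0) ≤ H := by
          rw [Finset.sum_ite_eq']
          split_ifs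
          · exact le_rfl
          · exact hH
        have h2 : ∑ n ∈ Finset.range N, (if n + H = k + 1 then (H : ℝ) else 0) ≤ H := by
          rw [← Finset.sum_filter, Finset.sum_const, nsmul_eq_mul]
          have hc : ((Finset.range N).filter (fun n => n + H = k + 1)).card ≤ 1 := by
            rw [Finset.card_le_one]
            intro a ha b hb
            have := (Finset.mem_filter.1 ha).2
            have := (Finset.mem_filter.1 hb).2
            omega
          have hc' : ((((Finset.range N).filter (fun n => n + H = k + 1)).card : ℕ) : ℝ) ≤ 1 := by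
            exact_mod_cast hc
          nlinarith
        linarith

theorem Cw_lip (k j : ℕ) : ‖Cw β N H (k + j) - Cw β N H k‖ ≤ 2 * H * j := by
  induction j with
  | zero => simp
  | succ j ih =>
    have h1 := Cw_lip_one β N H (k + j)
    calc ‖Cw β N H (k + (j + 1)) - Cw β N H k‖ =
          ‖(Cw β N H (k + j + 1) - Cw β N H (k + j)) + (Cw β N H (k + j) - Cw β N H k)‖ := by
            rw [← add_assoc]
            congr 1
            ring
      _ ≤ _ := norm_add_le _ _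
      _ ≤ 2 * H + 2 * H * j := add_le_add h1 ih
      _ = _ := by push_cast; ring

theorem sum_gg_Cw :
    ∑ k ∈ Finset.range (N + H), gg β k * Cw β N H k =
      ((∑ n ∈ Finset.range N, ‖Sw β H n‖ ^ 2 : ℝ) : ℂ) := by
  classical
  unfold Cw
  simp_rw [Finset.mul_sum]
  rw [Finset.sum_comm]
  push_cast
  apply Finset.sum_congr rfl
  intro n hn
  have hn' := Finset.mem_range.1 hn
  have h1 : ∑ k ∈ Finset.range (N + H),
      gg β k * (if n ≤ k ∧ k < n + H then (starRingEnd ℂ) (Sw β H n) else 0) =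
      (∑ k ∈ Finset.Ico n (n + H), gg β k) * (starRingEnd ℂ) (Sw β H n) := by
    rw [Finset.sum_mul]
    have h2 : Finset.Ico n (n + H) =
        (Finset.range (N + H)).filter (fun k => n ≤ k ∧ k < n + H) := by
      ext k
      simp only [Finset.mem_Ico, Finset.mem_filter, Finset.mem_range]
      omega
    rw [h2, Finset.sum_filter]
    apply Finset.sum_congr rfl
    intro k _
    split_ifs <;> simp
  rw [h1, Finset.sum_Ico_eq_sum_range]
  have h3 : ∑ k ∈ Finset.range (n + H - n), gg β (n + k) = Sw β H n := by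
    unfold Sw
    rw [Nat.add_sub_cancel_left]
  rw [h3, Complex.mul_conj, Complex.normSq_eq_norm_sq]
  push_cast
  rfl

end Windows

/-! ### The main estimate -/

theorem sum_dvd (F : ℕ → ℂ) (L p : ℕ) (hp : 0 < p) (hF : ∀ k, L ≤ k → F k = 0) :
    ∑ k ∈ Finset.range L, (if p ∣ k then F k else 0) = ∑ m ∈ Finset.range L, F (p * m) := by
  classical
  rw [← Finset.sum_filter]
  have h1 : (Finset.range L).filter (fun k => p ∣ k) =
      ((Finset.range L).filter (fun m => p * m < L)).image (fun m => p * m) := by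
    ext k
    simp only [Finset.mem_filter, Finset.mem_range, Finset.mem_image]
    constructor
    · rintro ⟨h, m, rfl⟩
      refine ⟨m, ⟨?_, h⟩, rfl⟩
      calc m = 1 * m := (one_mul m).symm
        _ ≤ p * m := Nat.mul_le_mul_right _ hp
        _ < L := h
    · rintro ⟨m, ⟨_, h⟩, rfl⟩
      exact ⟨h, m, rfl⟩
  rw [h1, Finset.sum_image (fun x _ y _ h => Nat.eq_of_mul_eq_mul_left hp h), Finset.sum_filter]
  apply Finset.sum_congr rfl
  intro m _
  split_ifs with h
  · rfl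
  · exact (hF _ (not_lt.1 h)).symm

theorem gg_prime_mul (β : ℝ) {p : ℕ} (hp : p.Prime) {m : ℕ} (hm : m ≠ 0) :
    gg β (p * m) = - ((lam m : ℂ) * (ch β p) ^ m) := by
  unfold gg
  rw [ch_mul]
  have h : lam (p * m) = - lam m := by
    unfold lam
    rw [ArithmeticFunction.cardFactors_mul hp.ne_zero hm,
      ArithmeticFunction.cardFactors_apply_prime hp, pow_add, pow_one]
    ring
  rw [h]
  push_cast
  ring

theorem cauchy_real {ι : Type*} (s : Finset ι) (f : ι → ℝ) :
    (∑ i ∈ s, f i) ^ 2 ≤ s.card * ∑ i ∈ s, f i ^ 2 := sq_sum_le_card_mul_sum_sq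

/-- The diagonal and off-diagonal estimate. -/
theorem sum_U_sq_le (β : ℝ) (N H : ℕ) (P : Finset ℕ) (hP : ∀ p ∈ P, p.Prime) (K L : ℝ)
    (hL : ∀ p ∈ P, (p : ℝ) ≤ L) (hK : 0 ≤ K) (hNH : 0 < N + H)
    (hKb : ∀ p ∈ P, ∀ q ∈ P, p ≠ q → ∀ M : ℕ,
      ‖∑ m ∈ Finset.range M, (ch β p * (starRingEnd ℂ) (ch β q)) ^ m‖ ≤ K) :
    ∑ m ∈ Finset.range (N + H), ‖∑ p ∈ P, (ch β p) ^ m * Cw β N H (p * m)‖ ^ 2 ≤
      (H : ℝ) ^ 4 * (((N + H : ℕ) : ℝ) * (∑ p ∈ P, (1 : ℝ) / p) + P.card) +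
        (P.card : ℝ) ^ 2 * (K * ((H : ℝ) ^ 4 + ((N + H : ℕ) : ℝ) * (4 * L * (H : ℝ) ^ 3))) := by
  classical
  set N' := N + H with hN'
  have hL0 : ∀ p ∈ P, (0 : ℝ) ≤ L := fun p hp => (Nat.cast_nonneg p).trans (hL p hp)
  have hexp : ((∑ m ∈ Finset.range N', ‖∑ p ∈ P, (ch β p) ^ m * Cw β N H (p * m)‖ ^ 2 : ℝ) : ℂ) =
      ∑ p ∈ P, ∑ q ∈ P, ∑ m ∈ Finset.range N',
        (Cw β N H (p * m) * (starRingEnd ℂ) (Cw β N H (q * m))) *
          (ch β p * (starRingEnd ℂ) (ch β q)) ^ m := by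
    push_cast
    have h1 : ∀ m, ((‖∑ p ∈ P, (ch β p) ^ m * Cw β N H (p * m)‖ : ℂ)) ^ 2 =
        ∑ p ∈ P, ∑ q ∈ P, (Cw β N H (p * m) * (starRingEnd ℂ) (Cw β N H (q * m))) *
          (ch β p * (starRingEnd ℂ) (ch β q)) ^ m := by
      intro m
      rw [← Complex.mul_conj', map_sum, Finset.sum_mul_sum]
      apply Finset.sum_congr rfl
      intro p _
      apply Finset.sum_congr rfl
      intro q _
      rw [map_mul, map_pow, mul_pow]
      ring
    simp_rw [h1]
    rw [Finset.sum_comm]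
    apply Finset.sum_congr rfl
    intro p _
    rw [Finset.sum_comm]
  have hterm : ∀ p ∈ P, ∀ q ∈ P, ‖∑ m ∈ Finset.range N',
        (Cw β N H (p * m) * (starRingEnd ℂ) (Cw β N H (q * m))) *
          (ch β p * (starRingEnd ℂ) (ch β q)) ^ m‖ ≤
      (if p = q then (H : ℝ) ^ 4 * ((N' : ℝ) * (1 / p) + 1) else 0) +
        K * ((H : ℝ) ^ 4 + (N' : ℝ) * (4 * L * (H : ℝ) ^ 3)) := by
    intro p hp q hq
    have hH0 : (0 : ℝ) ≤ H := Nat.cast_nonneg H
    have hD : ∀ m, ‖Cw β N H (p * m) * (starRingEnd ℂ) (Cw β N H (q * m))‖ ≤ (H : ℝ) ^ 4 := by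
      intro m
      rw [norm_mul, RCLike.norm_conj]
      calc _ ≤ (H : ℝ) ^ 2 * (H : ℝ) ^ 2 :=
            mul_le_mul (norm_Cw_le β N H _) (norm_Cw_le β N H _) (norm_nonneg _) (by positivity)
        _ = _ := by ring
    by_cases hpq : p = q
    · subst hpq
      rw [if_pos rfl]
      have hpos : 0 ≤ K * ((H : ℝ) ^ 4 + (N' : ℝ) * (4 * L * (H : ℝ) ^ 3)) := by
        have := hL0 p hp
        positivity
      have h1 : ‖∑ m ∈ Finset.range N',
          (Cw β N H (p * m) * (starRingEnd ℂ) (Cw β N H (p * m))) *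
            (ch β p * (starRingEnd ℂ) (ch β p)) ^ m‖ ≤ (H : ℝ) ^ 4 * ((N' : ℝ) * (1 / p) + 1) := by
        calc _ ≤ ∑ m ∈ Finset.range N', ‖(Cw β N H (p * m) * (starRingEnd ℂ) (Cw β N H (p * m))) *
            (ch β p * (starRingEnd ℂ) (ch β p)) ^ m‖ := norm_sum_le _ _
          _ ≤ ∑ m ∈ Finset.range N', (if p * m < N' then (H : ℝ) ^ 4 else 0) := by
              apply Finset.sum_le_sum
              intro m _
              have hch : ‖ch β p * (starRingEnd ℂ) (ch β p)‖ = 1 := by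
                rw [norm_mul, RCLike.norm_conj, norm_ch, one_mul]
              rw [norm_mul, norm_pow, hch, one_pow, mul_one]
              split_ifs with h
              · exact hD m
              · rw [Cw_zero β N H (p * m) (not_lt.1 h), zero_mul, norm_zero]
          _ = ((Finset.range N').filter (fun m => p * m < N')).card * (H : ℝ) ^ 4 := by
              rw [← Finset.sum_filter, Finset.sum_const, nsmul_eq_mul]
          _ ≤ ((N' : ℝ) * (1 / p) + 1) * (H : ℝ) ^ 4 := by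
              gcongr
              have hc : ((Finset.range N').filter (fun m => p * m < N')).card ≤
                  ((Finset.range N').filter (fun k => p ∣ k)).card := by
                apply Finset.card_le_card_of_injOn (fun m => p * m)
                · intro m hm
                  have := (Finset.mem_filter.1 hm).2
                  exact Finset.mem_coe.2 (Finset.mem_filter.2 ⟨Finset.mem_range.2 this, ⟨m, rfl⟩⟩)
                · intro x _ y _ h
                  exact Nat.eq_of_mul_eq_mul_left (hP p hp).pos h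
              have h2 := range_dvd_card_le N' p (hP p hp).pos hNH
              calc (((Finset.range N').filter (fun m => p * m < N')).card : ℝ) ≤
                  (((Finset.range N').filter (fun k => p ∣ k)).card : ℝ) := by exact_mod_cast hc
                _ ≤ (N' : ℝ) / p + 1 := h2
                _ = (N' : ℝ) * (1 / p) + 1 := by ring
          _ = _ := by ring
      linarith
    · rw [if_neg hpq, zero_add]
      have hLip : ∀ m, ‖Cw β N H (p * (m + 1)) * (starRingEnd ℂ) (Cw β N H (q * (m + 1))) -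
          Cw β N H (p * m) * (starRingEnd ℂ) (Cw β N H (q * m))‖ ≤ 4 * L * (H : ℝ) ^ 3 := by
        intro m
        have e : Cw β N H (p * (m + 1)) * (starRingEnd ℂ) (Cw β N H (q * (m + 1))) -
          Cw β N H (p * m) * (starRingEnd ℂ) (Cw β N H (q * m)) =
          (Cw β N H (p * (m + 1)) - Cw β N H (p * m)) *
            (starRingEnd ℂ) (Cw β N H (q * (m + 1))) +
          Cw β N H (p * m) *
            (starRingEnd ℂ) (Cw β N H (q * (m + 1)) - Cw β N H (q * m)) := by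
          rw [map_sub]
          ring
        rw [e]
        have hp1 : ‖Cw β N H (p * (m + 1)) - Cw β N H (p * m)‖ ≤ 2 * H * L := by
          rw [mul_add, mul_one]
          refine (Cw_lip β N H (p * m) p).trans ?_
          gcongr
          exact hL p hp
        have hq1 : ‖Cw β N H (q * (m + 1)) - Cw β N H (q * m)‖ ≤ 2 * H * L := by
          rw [mul_add, mul_one]
          refine (Cw_lip β N H (q * m) q).trans ?_
          gcongr
          exact hL q hq
        have hLn := hL0 p hp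
        calc _ ≤ ‖(Cw β N H (p * (m + 1)) - Cw β N H (p * m)) *
            (starRingEnd ℂ) (Cw β N H (q * (m + 1)))‖ + ‖Cw β N H (p * m) *
            (starRingEnd ℂ) (Cw β N H (q * (m + 1)) - Cw β N H (q * m))‖ := norm_add_le _ _
          _ ≤ (2 * H * L) * (H : ℝ) ^ 2 + (H : ℝ) ^ 2 * (2 * H * L) := by
              rw [norm_mul, norm_mul, RCLike.norm_conj, RCLike.norm_conj]
              apply add_le_add
              · exact mul_le_mul hp1 (norm_Cw_le β N H _) (norm_nonneg _) (by positivity)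
              · exact mul_le_mul (norm_Cw_le β N H _) hq1 (norm_nonneg _) (by positivity)
          _ = _ := by ring
      exact abel_bound (fun m => Cw β N H (p * m) * (starRingEnd ℂ) (Cw β N H (q * m)))
        (fun m => (ch β p * (starRingEnd ℂ) (ch β q)) ^ m) K _ _ hK (hKb p hp q hq hpq) hD hLip N'
  have h2 : ∑ m ∈ Finset.range N', ‖∑ p ∈ P, (ch β p) ^ m * Cw β N H (p * m)‖ ^ 2 ≤
      ‖((∑ m ∈ Finset.range N', ‖∑ p ∈ P, (ch β p) ^ m * Cw β N H (p * m)‖ ^ 2 : ℝ) : ℂ)‖ := by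
    rw [Complex.norm_real]
    exact le_abs_self _
  refine h2.trans ?_
  rw [hexp]
  calc _ ≤ ∑ p ∈ P, ∑ q ∈ P, ‖∑ m ∈ Finset.range N',
        (Cw β N H (p * m) * (starRingEnd ℂ) (Cw β N H (q * m))) *
          (ch β p * (starRingEnd ℂ) (ch β q)) ^ m‖ :=
        (norm_sum_le _ _).trans (Finset.sum_le_sum fun p _ => norm_sum_le _ _)
    _ ≤ ∑ p ∈ P, ∑ q ∈ P, ((if p = q then (H : ℝ) ^ 4 * ((N' : ℝ) * (1 / p) + 1) else 0) +
        K * ((H : ℝ) ^ 4 + (N' : ℝ) * (4 * L * (H : ℝ) ^ 3))) :=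
        Finset.sum_le_sum fun p hp => Finset.sum_le_sum fun q hq => hterm p hp q hq
    _ = _ := by
        have h3 : ∀ p ∈ P, ∑ q ∈ P,
            ((if p = q then (H : ℝ) ^ 4 * ((N' : ℝ) * (1 / p) + 1) else 0) +
            K * ((H : ℝ) ^ 4 + (N' : ℝ) * (4 * L * (H : ℝ) ^ 3))) =
            (H : ℝ) ^ 4 * ((N' : ℝ) * (1 / p) + 1) +
            P.card * (K * ((H : ℝ) ^ 4 + (N' : ℝ) * (4 * L * (H : ℝ) ^ 3))) := by
          intro p hp
          rw [Finset.sum_add_distrib, Finset.sum_ite_eq, if_pos hp, Finset.sum_const,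
            nsmul_eq_mul]
        rw [Finset.sum_congr rfl h3, Finset.sum_add_distrib, ← Finset.mul_sum,
          Finset.sum_add_distrib, ← Finset.mul_sum, Finset.sum_const, Finset.sum_const,
          nsmul_eq_mul, nsmul_eq_mul, mul_one]
        ring

theorem ch_ne {β : ℝ} (hβ : Irrational β) {p q : ℕ} (hpq : p ≠ q) :
    ch β p * (starRingEnd ℂ) (ch β q) ≠ 1 := by
  intro h
  have h1 : ch β p = ch β q := by
    have h2 : (starRingEnd ℂ) (ch β q) * ch β q = 1 := by
      rw [← Complex.normSq_eq_conj_mul_self, Complex.normSq_eq_norm_sq, norm_ch]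
      norm_num
    calc ch β p = ch β p * ((starRingEnd ℂ) (ch β q) * ch β q) := by rw [h2, mul_one]
      _ = (ch β p * (starRingEnd ℂ) (ch β q)) * ch β q := by ring
      _ = ch β q := by rw [h, one_mul]
  unfold ch at h1
  rw [Complex.exp_eq_exp_iff_exists_int] at h1
  obtain ⟨n, hn⟩ := h1
  have hpi : (2 * (Real.pi : ℂ) * Complex.I) ≠ 0 := by
    simp [Real.pi_ne_zero]
  have h3 : (β : ℂ) * p = β * q + n := by
    apply mul_left_cancel₀ hpi
    rw [hn]
    ring
  have h4 : β * p = β * q + n := by exact_mod_cast h3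
  have hpq' : ((p : ℝ) - q) ≠ 0 := sub_ne_zero.2 (by exact_mod_cast hpq)
  have h5 : β = (n : ℝ) / ((p : ℝ) - q) := by
    rw [eq_div_iff hpq']
    linarith
  apply hβ
  refine ⟨(n : ℚ) / ((p : ℚ) - q), ?_⟩
  rw [h5]
  push_cast
  rfl

/-- The estimate for a fixed finite set of primes. -/
theorem kat_core (β : ℝ) (N H : ℕ) (P : Finset ℕ) (hP : ∀ p ∈ P, p.Prime) (K L : ℝ)
    (hL : ∀ p ∈ P, (p : ℝ) ≤ L) (hK : 0 ≤ K) (hNH : 0 < N + H)
    (hKb : ∀ p ∈ P, ∀ q ∈ P, p ≠ q → ∀ M : ℕ,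
      ‖∑ m ∈ Finset.range M, (ch β p * (starRingEnd ℂ) (ch β q)) ^ m‖ ≤ K)
    (hS1 : 1 ≤ ∑ p ∈ P, (1 : ℝ) / p)
    (hN2 : (P.card : ℝ) ^ 2 ≤ (∑ p ∈ P, (1 : ℝ) / p) * ((N + H : ℕ) : ℝ))
    (hN3 : 2 * (P.card : ℝ) ≤ ((N + H : ℕ) : ℝ))
    (hN4 : (P.card : ℝ) ^ 2 * K ≤ ((N + H : ℕ) : ℝ))
    (hH : (P.card : ℝ) ^ 2 * (K * (4 * L)) ≤ H) :
    (∑ n ∈ Finset.range N, ‖Sw β H n‖ ^ 2) ^ 2 * (∑ p ∈ P, (1 : ℝ) / p) ≤
      21 * (H : ℝ) ^ 4 * ((N + H : ℕ) : ℝ) ^ 2 := by
  classical
  set N' := N + H with hN'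
  set S := ∑ p ∈ P, (1 : ℝ) / p with hS
  set X := ∑ n ∈ Finset.range N, ‖Sw β H n‖ ^ 2 with hX
  have hX0 : 0 ≤ X := Finset.sum_nonneg fun n _ => by positivity
  have hH0 : (0 : ℝ) ≤ H := Nat.cast_nonneg H
  have hN'0 : (0 : ℝ) < N' := by exact_mod_cast hNH
  set F : ℕ → ℂ := fun k => gg β k * Cw β N H k with hF
  have hFn : ∀ k, ‖F k‖ ≤ (H : ℝ) ^ 2 := by
    intro k
    simp only [hF]
    rw [norm_mul, norm_gg, one_mul]
    exact norm_Cw_le β N H k
  have hF0 : ∀ k, N' ≤ k → F k = 0 := by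
    intro k hk
    simp only [hF]
    rw [Cw_zero β N H k hk, mul_zero]
  have hsum : ∑ k ∈ Finset.range N', F k = (X : ℂ) := sum_gg_Cw β N H
  -- the decomposition
  set T1 : ℂ := ∑ k ∈ Finset.range N', F k * ((S - wP P k : ℝ) : ℂ) with hT1
  set U : ℕ → ℂ := fun m => ∑ p ∈ P, (ch β p) ^ m * Cw β N H (p * m) with hU
  set T2 : ℂ := ∑ m ∈ Finset.range N', (lam m : ℂ) * U m with hT2
  have hdec : ((S * X : ℝ) : ℂ) = T1 - T2 + 2 * P.card * Cw β N H 0 := by
    have h1 : ((S * X : ℝ) : ℂ) = T1 + ∑ k ∈ Finset.range N', F k * ((wP P k : ℝ) : ℂ) := by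
      rw [hT1, ← Finset.sum_add_distrib]
      push_cast
      rw [← hsum, Finset.mul_sum]
      apply Finset.sum_congr rfl
      intro k _
      ring
    have h2 : ∑ k ∈ Finset.range N', F k * ((wP P k : ℝ) : ℂ) =
        ∑ p ∈ P, ∑ m ∈ Finset.range N', F (p * m) := by
      have h3 : ∀ k, F k * ((wP P k : ℝ) : ℂ) = ∑ p ∈ P, (if p ∣ k then F k else 0) := by
        intro k
        unfold wP
        push_cast
        rw [Finset.mul_sum]
        apply Finset.sum_congr rfl
        intro p _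
        split_ifs <;> simp
      simp_rw [h3]
      rw [Finset.sum_comm]
      apply Finset.sum_congr rfl
      intro p hp
      exact sum_dvd F N' p (hP p hp).pos hF0
    have h4 : ∀ p ∈ P, ∑ m ∈ Finset.range N', F (p * m) =
        2 * Cw β N H 0 - ∑ m ∈ Finset.range N', (lam m : ℂ) * ((ch β p) ^ m * Cw β N H (p * m)) := by
      intro p hp
      have h5 : ∀ m ∈ Finset.range N', F (p * m) =
          (if m = 0 then 2 * Cw β N H 0 else 0) -
            (lam m : ℂ) * ((ch β p) ^ m * Cw β N H (p * m)) := by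
        intro m _
        by_cases hm : m = 0
        · subst hm
          simp only [hF, mul_zero, if_true, pow_zero, one_mul]
          unfold gg
          have h6 : ch β 0 = 1 := by simp [ch]
          have h7 : lam 0 = 1 := by simp [lam]
          rw [h6, h7]
          push_cast
          ring
        · rw [if_neg hm, zero_sub]
          simp only [hF]
          rw [gg_prime_mul β (hP p hp) hm]
          ring
      rw [Finset.sum_congr rfl h5, Finset.sum_sub_distrib, Finset.sum_ite_eq', if_pos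
        (Finset.mem_range.2 hNH)]
    rw [h1, h2, Finset.sum_congr rfl h4, Finset.sum_sub_distrib, Finset.sum_const, nsmul_eq_mul]
    have h6 : ∑ p ∈ P, ∑ m ∈ Finset.range N', (lam m : ℂ) * ((ch β p) ^ m * Cw β N H (p * m)) =
        T2 := by
      rw [hT2, Finset.sum_comm]
      apply Finset.sum_congr rfl
      intro m _
      rw [hU, Finset.mul_sum]
    rw [h6]
    ring
  -- the three bounds
  have hb1 : ‖T1‖ ^ 2 ≤ (H : ℝ) ^ 4 * (N' : ℝ) ^ 2 * (2 * S) := by
    have h1 : ‖T1‖ ≤ ∑ k ∈ Finset.range N', (H : ℝ) ^ 2 * |wP P k - S| := by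
      refine (norm_sum_le _ _).trans (Finset.sum_le_sum fun k _ => ?_)
      rw [norm_mul, Complex.norm_real, Real.norm_eq_abs, abs_sub_comm]
      exact mul_le_mul_of_nonneg_right (hFn k) (abs_nonneg _)
    rw [← Finset.mul_sum] at h1
    have h2 := cauchy_real (Finset.range N') (fun k => |wP P k - S|)
    rw [Finset.card_range] at h2
    have h3 := tk_finite P hP N' hNH hN2
    simp_rw [sq_abs] at h2
    have h4 : (∑ k ∈ Finset.range N', |wP P k - S|) ^ 2 ≤ N' * (2 * S * N') := by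
      refine h2.trans ?_
      gcongr
    have h5 : 0 ≤ ∑ k ∈ Finset.range N', |wP P k - S| :=
      Finset.sum_nonneg fun k _ => abs_nonneg _
    calc ‖T1‖ ^ 2 ≤ ((H : ℝ) ^ 2 * ∑ k ∈ Finset.range N', |wP P k - S|) ^ 2 := by gcongr
      _ = (H : ℝ) ^ 4 * (∑ k ∈ Finset.range N', |wP P k - S|) ^ 2 := by ring
      _ ≤ (H : ℝ) ^ 4 * (N' * (2 * S * N')) := by gcongr
      _ = _ := by ring
  have hb2 : ‖T2‖ ^ 2 ≤ (H : ℝ) ^ 4 * (N' : ℝ) ^ 2 * (S + 3) := by
    have h1 : ‖T2‖ ≤ ∑ m ∈ Finset.range N', ‖U m‖ := by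
      refine (norm_sum_le _ _).trans (Finset.sum_le_sum fun k _ => ?_)
      rw [norm_mul, norm_lam, one_mul]
    have h2 := cauchy_real (Finset.range N') (fun m => ‖U m‖)
    rw [Finset.card_range] at h2
    have h3 := sum_U_sq_le β N H P hP K L hL hK hNH hKb
    have h4 : (H : ℝ) ^ 4 * ((N' : ℝ) * S + P.card) +
        (P.card : ℝ) ^ 2 * (K * ((H : ℝ) ^ 4 + (N' : ℝ) * (4 * L * (H : ℝ) ^ 3))) ≤
        (H : ℝ) ^ 4 * (N' : ℝ) * (S + 3) := by
      have h5 : (P.card : ℝ) ≤ N' := by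
        have : (0 : ℝ) ≤ P.card := Nat.cast_nonneg _
        linarith
      have h6 : (H : ℝ) ^ 4 * (P.card : ℝ) ≤ (H : ℝ) ^ 4 * N' := by gcongr
      have h7 : (H : ℝ) ^ 4 * ((P.card : ℝ) ^ 2 * K) ≤ (H : ℝ) ^ 4 * N' := by gcongr
      have h8 : (H : ℝ) ^ 3 * N' * ((P.card : ℝ) ^ 2 * (K * (4 * L))) ≤ (H : ℝ) ^ 3 * N' * H := by
        gcongr
      nlinarith
    calc ‖T2‖ ^ 2 ≤ (∑ m ∈ Finset.range N', ‖U m‖) ^ 2 := by gcongr
      _ ≤ (N' : ℝ) * ∑ m ∈ Finset.range N', ‖U m‖ ^ 2 := h2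
      _ ≤ (N' : ℝ) * ((H : ℝ) ^ 4 * (N' : ℝ) * (S + 3)) := by
          gcongr
          exact h3.trans h4
      _ = _ := by ring
  have hb3 : ‖(2 * P.card * Cw β N H 0 : ℂ)‖ ^ 2 ≤ (H : ℝ) ^ 4 * (N' : ℝ) ^ 2 := by
    have h1 : ‖(2 * P.card * Cw β N H 0 : ℂ)‖ ≤ (N' : ℝ) * (H : ℝ) ^ 2 := by
      rw [norm_mul, norm_mul, Complex.norm_natCast, Complex.norm_ofNat]
      exact mul_le_mul hN3 (norm_Cw_le β N H 0) (norm_nonneg _) hN'0.le
    calc _ ≤ ((N' : ℝ) * (H : ℝ) ^ 2) ^ 2 := by gcongr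
      _ = _ := by ring
  have hn : S * X ≤ ‖T1‖ + ‖T2‖ + ‖(2 * P.card * Cw β N H 0 : ℂ)‖ := by
    have h1 : S * X = ‖((S * X : ℝ) : ℂ)‖ := by
      rw [Complex.norm_real, Real.norm_eq_abs, abs_of_nonneg]
      have : 0 ≤ S := by linarith
      positivity
    rw [h1, hdec]
    exact (norm_add_le _ _).trans (add_le_add_left (norm_sub_le _ _) _)
  have hS0 : 0 < S := by linarith
  have hfin : (S * X) ^ 2 ≤ 3 * ((H : ℝ) ^ 4 * (N' : ℝ) ^ 2 * (2 * S) +
      (H : ℝ) ^ 4 * (N' : ℝ) ^ 2 * (S + 3) + (H : ℝ) ^ 4 * (N' : ℝ) ^ 2) := by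
    have h0 : 0 ≤ S * X := by positivity
    have h1 : (S * X) ^ 2 ≤ (‖T1‖ + ‖T2‖ + ‖(2 * P.card * Cw β N H 0 : ℂ)‖) ^ 2 := by gcongr
    nlinarith [sq_nonneg (‖T1‖ - ‖T2‖), sq_nonneg (‖T2‖ - ‖(2 * P.card * Cw β N H 0 : ℂ)‖),
      sq_nonneg (‖T1‖ - ‖(2 * P.card * Cw β N H 0 : ℂ)‖)]
  have hpos : 0 ≤ (H : ℝ) ^ 4 * (N' : ℝ) ^ 2 := by positivity
  have h9 : S * (X ^ 2 * S) ≤ S * (21 * (H : ℝ) ^ 4 * (N' : ℝ) ^ 2) := by
    nlinarith
  exact le_of_mul_le_mul_left h9 hS0

/-- [KAT] holds. -/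
theorem kat_main : StatementKAT := by
  classical
  intro β η hβ hη
  -- the primes
  obtain ⟨P, hP, hPS⟩ : ∃ P : Finset ℕ, (∀ p ∈ P, p.Prime) ∧
      max 1 (84 / η ^ 2) ≤ ∑ p ∈ P, (1 : ℝ) / p := by
    have h := Nat.Primes.not_summable_one_div
    by_contra hcon
    push Not at hcon
    apply h
    apply summable_of_sum_le (c := max 1 (84 / η ^ 2))
    · intro p
      positivity
    · intro u
      have h1 := hcon (u.map ⟨fun p : Nat.Primes => (p : ℕ), Subtype.coe_injective⟩) (by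
        intro p hp
        obtain ⟨q, _, rfl⟩ := Finset.mem_map.1 hp
        exact q.2)
      rw [Finset.sum_map] at h1
      exact h1.le
  have hS1 : 1 ≤ ∑ p ∈ P, (1 : ℝ) / p := (le_max_left _ _).trans hPS
  have hS2 : 84 / η ^ 2 ≤ ∑ p ∈ P, (1 : ℝ) / p := (le_max_right _ _).trans hPS
  -- the constant of the geometric sums
  have hKf : ∀ p q : ℕ, ∃ K : ℝ, 0 ≤ K ∧ (p ≠ q → ∀ M : ℕ,
      ‖∑ m ∈ Finset.range M, (ch β p * (starRingEnd ℂ) (ch β q)) ^ m‖ ≤ K) := by
    intro p q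
    by_cases hpq : p = q
    · exact ⟨0, le_rfl, fun h => absurd hpq h⟩
    · obtain ⟨K, hK0, hK⟩ := geom_bound (ch β p * (starRingEnd ℂ) (ch β q))
        (by rw [norm_mul, RCLike.norm_conj, norm_ch, norm_ch, one_mul]) (ch_ne hβ hpq)
      exact ⟨K, hK0, fun _ => hK⟩
  choose Kf hKf0 hKf1 using hKf
  set K : ℝ := ∑ p ∈ P, ∑ q ∈ P, Kf p q with hKdef
  have hK0 : 0 ≤ K := Finset.sum_nonneg fun p _ => Finset.sum_nonneg fun q _ => hKf0 p q
  have hKb : ∀ p ∈ P, ∀ q ∈ P, p ≠ q → ∀ M : ℕ,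
      ‖∑ m ∈ Finset.range M, (ch β p * (starRingEnd ℂ) (ch β q)) ^ m‖ ≤ K := by
    intro p hp q hq hpq M
    refine (hKf1 p q hpq M).trans ?_
    calc Kf p q ≤ ∑ q ∈ P, Kf p q :=
          Finset.single_le_sum (f := fun q => Kf p q) (fun q _ => hKf0 p q) hq
      _ ≤ K := Finset.single_le_sum (f := fun p => ∑ q ∈ P, Kf p q)
          (fun p _ => Finset.sum_nonneg fun q _ => hKf0 p q) hp
  set L : ℝ := ∑ p ∈ P, (p : ℝ) with hLdef
  have hL : ∀ p ∈ P, (p : ℝ) ≤ L := fun p hp =>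
    Finset.single_le_sum (f := fun p : ℕ => (p : ℝ)) (fun q _ => Nat.cast_nonneg q) hp
  refine ⟨⌈(P.card : ℝ) ^ 2 * (K * (4 * L))⌉₊ + 1, fun H hH => ?_⟩
  refine ⟨max (max (⌈(P.card : ℝ) ^ 2⌉₊) (2 * P.card))
    (max (⌈(P.card : ℝ) ^ 2 * K⌉₊) (max H 1)), fun N hN => ?_⟩
  have hn1 : (P.card : ℝ) ^ 2 ≤ N := (Nat.le_ceil _).trans
    (by exact_mod_cast ((le_max_left _ _).trans (le_max_left _ _)).trans hN)
  have hn2 : 2 * (P.card : ℝ) ≤ N := by
    exact_mod_cast ((le_max_right _ _).trans (le_max_left _ _)).trans hN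
  have hn3 : (P.card : ℝ) ^ 2 * K ≤ N := (Nat.le_ceil _).trans
    (by exact_mod_cast ((le_max_left _ _).trans (le_max_right _ _)).trans hN)
  have hn4 : H ≤ N := ((le_max_left _ _).trans ((le_max_right _ _).trans (le_max_right _ _))).trans hN
  have hn5 : 1 ≤ N := ((le_max_right _ _).trans ((le_max_right _ _).trans (le_max_right _ _))).trans hN
  have hH1 : (P.card : ℝ) ^ 2 * (K * (4 * L)) ≤ H := by
    refine (Nat.le_ceil _).trans ?_
    exact_mod_cast (Nat.le_succ _).trans hH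
  have hcast : ((N + H : ℕ) : ℝ) = N + H := by push_cast; ring
  have hH0 : (0 : ℝ) ≤ H := Nat.cast_nonneg H
  have hN0 : (0 : ℝ) ≤ N := Nat.cast_nonneg N
  have hcore := kat_core β N H P hP K L hL hK0 (by omega) hKb hS1
    (by
      rw [hcast]
      nlinarith)
    (by rw [hcast]; linarith) (by rw [hcast]; linarith) hH1
  have hX0 : 0 ≤ ∑ n ∈ Finset.range N, ‖Sw β H n‖ ^ 2 := Finset.sum_nonneg fun n _ => by positivity
  have hgoal : ∑ n ∈ Finset.range N, ‖Sw β H n‖ ^ 2 ≤ η * (H : ℝ) ^ 2 * N := by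
    have h1 : ((N + H : ℕ) : ℝ) ≤ 2 * N := by
      rw [hcast]
      have : (H : ℝ) ≤ N := by exact_mod_cast hn4
      linarith
    have h2 : (∑ n ∈ Finset.range N, ‖Sw β H n‖ ^ 2) ^ 2 * (84 / η ^ 2) ≤
        21 * (H : ℝ) ^ 4 * (2 * N) ^ 2 := by
      calc _ ≤ (∑ n ∈ Finset.range N, ‖Sw β H n‖ ^ 2) ^ 2 * (∑ p ∈ P, (1 : ℝ) / p) := by gcongr
        _ ≤ 21 * (H : ℝ) ^ 4 * ((N + H : ℕ) : ℝ) ^ 2 := hcore
        _ ≤ _ := by gcongr
    have h3 : (∑ n ∈ Finset.range N, ‖Sw β H n‖ ^ 2) ^ 2 ≤ (η * (H : ℝ) ^ 2 * N) ^ 2 := by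
      rw [mul_div_assoc', div_le_iff₀ (by positivity)] at h2
      nlinarith
    exact (sq_le_sq₀ hX0 (by positivity)).1 h3
  calc _ = ∑ n ∈ Finset.range N, ‖Sw β H n‖ ^ 2 := by
        apply Finset.sum_congr rfl
        intro n _
        rw [norm_Sw]
    _ ≤ _ := hgoal

end Pool.Agent.H91.LF
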