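import Pool.Agent.H91.LF.Defs

/-!
Further statements for the project LF on `MP_c59857_nt`.
-/

set_option autoImplicit false

open Finset Filter Topology

namespace Pool.Agent.H91.LF

open Pool.Agent.H24.MR (lam)
open Pool.Agent.H24.T2 (Pset)
open Pool.Agent.H18.MR (FAP mi)

/-- The block of length `n` of the values of `x` in the direction `e`. -/
def blkv {d : ℕ} {A : Type} (x : (Fin d → ℤ) → A) (e : Fin d → ℤ) (n : ℕ) (ω : Fin d → ℤ) :
    Fin n → A := fun j => x (ω + ((j : ℕ) : ℤ) • e)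

/-- The residue vector modulo `p`. -/
def resv {d : ℕ} (p : ℕ) (ω : Fin d → ℤ) : Fin d → ZMod p := fun i => (ω i : ZMod p)

/-- Mutual information with the residue vector mod `p` (`0` if `p = 0`). -/
noncomputable def miV {d : ℕ} {α : Type} [Fintype α] (μ : FAP (Fin d → ℤ))
    (X : (Fin d → ℤ) → α) (p : ℕ) : ℝ :=
  if h : p = 0 then 0 else
    haveI : NeZero p := ⟨h⟩
    mi μ X (resv (d := d) p)

/-- [ENT] Entropy decrement with vector residues. -/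
def StatementENT : Prop :=
  ∃ c₀ : ℝ, 0 < c₀ ∧ ∀ (d : ℕ) (μ : FAP (Fin d → ℤ)),
    (∀ (v : Fin d → ℤ) (S : Set (Fin d → ℤ)), μ.P {ω | ω + v ∈ S} = μ.P S) →
    ∀ (A : Type) (_ : Fintype A) (x : (Fin d → ℤ) → A) (e : Fin d → ℤ) (Q R : ℕ) (θ : ℝ) (m₀ : ℕ),
    0 < Q → 0 < R → 0 < θ →
    ∃ m, m₀ ≤ m ∧ c₀ * 2 ^ m / (Nat.totient Q * m) ≤ ((Pset Q m).card : ℝ) ∧
      ∑ p ∈ Pset Q m, miV μ (blkv x e (R * 2 ^ m)) p ≤ θ * (Pset Q m).card

/-- The point `(n, n', t)`. -/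
def pt {m : ℕ} (n n' : ℤ) (t : Fin m → ℤ) : Fin (m + 2) → ℤ := Fin.cons n (Fin.cons n' t)

/-- The finite averages: logarithmic in `t ∈ [1, T] ^ m` and in `N ∈ [x, y]`, natural in
`n, n' ≤ N`. -/
noncomputable def avg (m T x y : ℕ) (f : (Fin (m + 2) → ℤ) → ℝ) : ℝ :=
  (∑ t ∈ box m T, wt t * ∑ N ∈ Finset.Icc x y, (1 / (N : ℝ)) *
    ((∑ n ∈ Finset.Icc 1 N, ∑ n' ∈ Finset.Icc 1 N,
      f (pt (n : ℤ) (n' : ℤ) (fun l => (t l : ℤ)))) / (N : ℝ) ^ 2)) /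
  ((∑ t ∈ box m T, wt t) * ∑ N ∈ Finset.Icc x y, (1 / (N : ℝ)))

/-- The integrand of `Gam`. -/
noncomputable def gint {m : ℕ} (a : ℤ) (b : Fin m → ℤ) (s : ℤ) (ω : Fin (m + 2) → ℤ) : ℝ :=
  lz (frm a b (ω 0) (par ω)) * lz (frm a b (ω 0) (par ω) + s) *
    (lz (frm a b (ω 1) (par ω)) * lz (frm a b (ω 1) (par ω) + s))

/-- [UA] Asymptotic translation invariance of the finite averages. -/
def StatementUA : Prop :=
  ∀ (m : ℕ) (T x y : ℕ → ℕ), Tendsto T atTop atTop → (∀ j, 0 < x j) →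
    Tendsto (fun j => Real.log ((y j : ℝ) / x j)) atTop atTop →
    ∀ (v : Fin (m + 2) → ℤ) (f : (Fin (m + 2) → ℤ) → ℝ), Bdd f →
      Tendsto (fun j => avg m (T j) (x j) (y j) (fun ω => f (ω + v)) - avg m (T j) (x j) (y j) f)
        atTop (𝓝 0)

open Classical in
/-- [UB] Asymptotic dilation invariance of the finite averages. -/
def StatementUB : Prop :=
  ∀ (m : ℕ) (T x y : ℕ → ℕ), Tendsto T atTop atTop → (∀ j, 0 < x j) →
    Tendsto (fun j => Real.log ((y j : ℝ) / x j)) atTop atTop →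
    ∀ (p : ℕ), 0 < p → ∀ f : (Fin (m + 2) → ℤ) → ℝ, Bdd f →
      Tendsto (fun j => avg m (T j) (x j) (y j)
          (fun ω => (p : ℝ) ^ (m + 2) * if ∀ i, (p : ℤ) ∣ ω i then f (fun i => ω i / p) else 0) -
        avg m (T j) (x j) (y j) f) atTop (𝓝 0)

/-- [UC] The averaged two point property of the finite averages. -/
def StatementUC : Prop :=
  ∀ (m : ℕ) (T x y : ℕ → ℕ), Tendsto T atTop atTop → (∀ j, 0 < x j) →
    Tendsto (fun j => Real.log ((y j : ℝ) / x j) / (1 + Real.log (T j))) atTop atTop →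
    ∀ (a : ℤ) (b : Fin m → ℤ),
      (∀ (s : ℤ) (η : ℝ), 0 < η → ∀ᶠ j in atTop, -η ≤ avg m (T j) (x j) (y j) (gint a b s)) ∧
      ∀ (c : ℤ) (η : ℝ), c ≠ 0 → 0 < η → ∃ H₀ : ℕ, ∀ H, H₀ ≤ H → ∀ᶠ j in atTop,
        ∑ s ∈ Finset.range H, avg m (T j) (x j) (y j) (gint a b (c * s)) ≤ η * H

/-- [UM] The limit mean. -/
def StatementUM : Prop :=
  ∀ (m : ℕ) (T x y : ℕ → ℕ), Tendsto T atTop atTop → (∀ j, 0 < x j) →
    Tendsto (fun j => Real.log ((y j : ℝ) / x j) / (1 + Real.log (T j))) atTop atTop →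
    ∃ M : Mean (m + 2), Dil M ∧ (∀ (a : ℤ) (b : Fin m → ℤ), Two M a b) ∧
      ∀ (f : (Fin (m + 2) → ℤ) → ℝ) (ρ : ℝ), Bdd f →
        (∀ᶠ j in atTop, ρ ≤ avg m (T j) (x j) (y j) f) → ρ ≤ M.E f

/-- [IND] From linear independence over the rationals to integer coefficients. -/
def StatementIND : Prop :=
  ∀ (m r : ℕ) (a : Fin r → ℤ) (b : Fin r → Fin m → ℤ) (J : Fin r → Prop) (j : Fin r),
    (Fin.cons 1 (Fin.cons (a j : ℚ) (fun l => (b j l : ℚ))) : Fin (m + 2) → ℚ) ∉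
      Submodule.span ℚ {z | ∃ i, i ≠ j ∧ J i ∧
        z = (Fin.cons 1 (Fin.cons (a i : ℚ) (fun l => (b i l : ℚ))) : Fin (m + 2) → ℚ)} →
    ∃ (D : ℕ) (w : ℤ) (v : Fin m → ℤ),
      (∀ i, i ≠ j → J i → (D : ℤ) * a i + w + ∑ l, v l * b i l = 0) ∧
      (D : ℤ) * a j + w + ∑ l, v l * b j l ≠ 0

/-- The squarefree test by the primes up to `w`. -/
noncomputable def sqw (w : ℕ) (n : ℤ) : ℝ :=
  if ∀ p ∈ (Finset.Icc 1 w).filter Nat.Prime, ¬ ((p : ℤ) ^ 2 ∣ n) then 1 else 0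

open Classical in
/-- [MUA] Approximation of the Möbius sum by a sum of the Liouville function with a periodic
weight, on average over the scales. -/
def StatementMUA : Prop :=
  ∀ (m r : ℕ) (a : Fin r → ℤ) (b : Fin r → Fin m → ℤ) (ε : Fin r → ℕ) (q n₀ : ℕ) (η : ℝ),
    (∀ i, 1 ≤ ε i) → 0 < q → 0 < η → ∃ w : ℕ, ∀ T : ℕ, ∃ K : ℕ, ∀ x y : ℕ, 0 < x → K * x ≤ y →
    ∀ t ∈ box m T,
      ∑ N ∈ Finset.Icc x y, (1 / (N : ℝ)) *
        (|(∑ n ∈ (Finset.Icc 1 N).filter (fun n => n ≡ n₀ [MOD q]),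
            ((∏ i, ((ArithmeticFunction.moebius
              (((n : ℤ) + (a i + ∑ l, b i l * t l)).toNat) : ℤ) : ℝ) ^ ε i) -
            (∏ i ∈ Finset.univ.filter (fun i => Odd (ε i)),
                lz (frm (a i) (b i) n (fun l => (t l : ℤ)))) *
              ∏ i, sqw w (frm (a i) (b i) n (fun l => (t l : ℤ))))) / N|) ≤
      η * Real.log (y / x)

end Pool.Agent.H91.LF
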